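import Mathlib
import Pool.Agent.H59.Q1.WallP
import Pool.Agent.H23.TC.Rfx
import Pool.Agent.H33.Q1.Tile

set_option autoImplicit false
open Finset

/-! # Geometry of a scaled polyomino near its boundary

`Geo` : the region `P` of tiles is the polyomino `Q` of cells of side `n` (origin `z`), except for tiles which
touch a corner; `AV`, `AH` : vertical and horizontal unit boundary edges of one arc; `Lt` : tiles of the
layer of the arc; `Vt` : tied grid points (parity `par`) : the points of the walls of the arc between two layer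
tiles. The structure is stable under the symmetries of the tile frame. -/

namespace Pool.Agent.H31.Sp

open Pool.Agent.H75.Perc Pool.Agent.H75.TwoArm Pool.Agent.H75.Four
open Pool.Agent.H99.NC Pool.Agent.H60.Q1
open Pool.Agent.H33.Q1 (lt)

/-- the tile touches a lattice point -/
def Tch (n : ℤ) (z : ℤ × ℤ) (x y : ℤ) : Prop :=
  ((x - z.1) % n = 0 ∨ (x - z.1) % n = n - 1) ∧ ((y - z.2) % n = 0 ∨ (y - z.2) % n = n - 1)

/-- two neighbours among the four cells around a lattice point belong to the polyomino -/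
def Two (Q : ℤ → ℤ → Prop) (X Y : ℤ) : Prop :=
  (Q (X - 1) (Y - 1) ∧ Q X (Y - 1)) ∨ (Q (X - 1) (Y - 1) ∧ Q (X - 1) Y) ∨
  (Q X Y ∧ Q X (Y - 1)) ∨ (Q X Y ∧ Q (X - 1) Y)

/-- one of the edges at the lattice point belongs to the arc -/
def AtE (AV AH : ℤ → ℤ → Prop) (X Y : ℤ) : Prop :=
  AV X (Y - 1) ∨ AV X Y ∨ AH (X - 1) Y ∨ AH X Y

/-- all boundary edges at the lattice point belong to the arc -/
structure FullE (Q AV AH : ℤ → ℤ → Prop) (X Y : ℤ) : Prop where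
  d : ¬ (Q X (Y - 1) ↔ Q (X - 1) (Y - 1)) → AV X (Y - 1)
  u : ¬ (Q X Y ↔ Q (X - 1) Y) → AV X Y
  l : ¬ (Q (X - 1) Y ↔ Q (X - 1) (Y - 1)) → AH (X - 1) Y
  r : ¬ (Q X Y ↔ Q X (Y - 1)) → AH X Y

/-- reflex corner: three of the four cells around the lattice point belong to the polyomino -/
def Rfx (Q : ℤ → ℤ → Prop) (X Y : ℤ) : Prop :=
  (¬ Q (X - 1) (Y - 1) ∧ Q X (Y - 1) ∧ Q (X - 1) Y ∧ Q X Y) ∨
  (Q (X - 1) (Y - 1) ∧ ¬ Q X (Y - 1) ∧ Q (X - 1) Y ∧ Q X Y) ∨
  (Q (X - 1) (Y - 1) ∧ Q X (Y - 1) ∧ ¬ Q (X - 1) Y ∧ Q X Y) ∨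
  (Q (X - 1) (Y - 1) ∧ Q X (Y - 1) ∧ Q (X - 1) Y ∧ ¬ Q X Y)

/-- the tile touches a lattice point which is not a reflex corner -/
def TFl (n : ℤ) (z : ℤ × ℤ) (Q : ℤ → ℤ → Prop) (x y : ℤ) : Prop :=
  ∃ X Y, ¬ Rfx Q X Y ∧ z.1 + n * X - 1 ≤ x ∧ x ≤ z.1 + n * X ∧ z.2 + n * Y - 1 ≤ y ∧ y ≤ z.2 + n * Y

/-- layer tile at a left wall -/
def LL (P : ℤ → ℤ → Prop) (x y : ℤ) : Prop := P (x + 1) y ∧ ¬ P x y ∧ ¬ P x (y + 1) ∧ ¬ P x (y - 1)
/-- layer tile at a right wall -/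
def LR (P : ℤ → ℤ → Prop) (x y : ℤ) : Prop := P (x - 1) y ∧ ¬ P x y ∧ ¬ P x (y + 1) ∧ ¬ P x (y - 1)
/-- layer tile at a floor -/
def LF (P : ℤ → ℤ → Prop) (x y : ℤ) : Prop := P x (y + 1) ∧ ¬ P x y ∧ ¬ P (x + 1) y ∧ ¬ P (x - 1) y
/-- layer tile at a ceiling -/
def LC (P : ℤ → ℤ → Prop) (x y : ℤ) : Prop := P x (y - 1) ∧ ¬ P x y ∧ ¬ P (x + 1) y ∧ ¬ P (x - 1) y

/-- **Geometry of one arc of a scaled polyomino.** -/
structure Geo (n m : ℤ) (z : ℤ × ℤ) (par : ℤ) (Q P AV AH Lt Vt : ℤ → ℤ → Prop) : Prop where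
  hn : 2 ≤ n
  ok : ∀ x y, (¬ Tch n z x y ∨ TFl n z Q x y) → (P x y ↔ Q ((x - z.1) / n) ((y - z.2) / n))
  /-- no diagonal contacts of cells -/
  nd1 : ∀ X Y, Q (X - 1) (Y - 1) → Q X Y → Q X (Y - 1) ∨ Q (X - 1) Y
  nd2 : ∀ X Y, Q X (Y - 1) → Q (X - 1) Y → Q (X - 1) (Y - 1) ∨ Q X Y
  bv : ∀ X Y, AV X Y → ¬ (Q X Y ↔ Q (X - 1) Y)
  bh : ∀ X Y, AH X Y → ¬ (Q X Y ↔ Q X (Y - 1))
  /-- marks are at convex corners -/
  cont : ∀ X Y, Two Q X Y → AtE AV AH X Y → FullE Q AV AH X Y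
  sub : ∀ x y, Lt x y → P x y
  lv : ∀ X Y x y, AV X Y → P x y → z.1 + n * X - m ≤ x → x < z.1 + n * X + m →
    z.2 + n * Y - m ≤ y → y < z.2 + n * Y + n + m → Lt x y
  lh : ∀ X Y x y, AH X Y → P x y → z.2 + n * Y - m ≤ y → y < z.2 + n * Y + m →
    z.1 + n * X - m ≤ x → x < z.1 + n * X + n + m → Lt x y
  tL : ∀ X Y x y, AV X Y → Q X Y → x = z.1 + n * X → z.2 + n * Y ≤ y → y ≤ z.2 + n * Y + n →
    (x + y) % 2 = par → LL P (x - 1) (y - 1) → LL P (x - 1) y → Vt x y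
  tR : ∀ X Y x y, AV X Y → ¬ Q X Y → x = z.1 + n * X → z.2 + n * Y ≤ y → y ≤ z.2 + n * Y + n →
    (x + y) % 2 = par → LR P x (y - 1) → LR P x y → Vt x y
  tF : ∀ X Y x y, AH X Y → Q X Y → y = z.2 + n * Y → z.1 + n * X ≤ x → x ≤ z.1 + n * X + n →
    (x + y) % 2 = par → LF P (x - 1) (y - 1) → LF P x (y - 1) → Vt x y
  tC : ∀ X Y x y, AH X Y → ¬ Q X Y → y = z.2 + n * Y → z.1 + n * X ≤ x → x ≤ z.1 + n * X + n →
    (x + y) % 2 = par → LC P (x - 1) y → LC P x y → Vt x y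

variable {n m par : ℤ} {z : ℤ × ℤ} {Q P AV AH Lt Vt : ℤ → ℤ → Prop}

lemma div_neg' (hn : 0 < n) (u : ℤ) : (-u - 1) / n = -(u / n) - 1 := by
  have h1 := Int.emod_add_mul_ediv u n
  have h2 := Int.emod_nonneg u hn.ne'
  have h3 := Int.emod_lt_of_pos u hn
  have e : -u - 1 = (n - 1 - u % n) + n * (-(u / n) - 1) := by
    have : u = u % n + n * (u / n) := h1.symm
    linear_combination -this
  rw [e, Int.add_mul_ediv_left _ _ hn.ne', Int.ediv_eq_zero_of_lt (by omega) (by omega), zero_add]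

lemma mod_neg' (hn : 0 < n) (u : ℤ) : (-u - 1) % n = n - 1 - u % n := by
  have h1 := Int.emod_add_mul_ediv u n
  have h2 := Int.emod_nonneg u hn.ne'
  have h3 := Int.emod_lt_of_pos u hn
  have e : -u - 1 = (n - 1 - u % n) + n * (-(u / n) - 1) := by
    have : u = u % n + n * (u / n) := h1.symm
    linear_combination -this
  rw [e, Int.add_mul_emod_self_left, Int.emod_eq_of_lt (by omega) (by omega)]

lemma Rfx.swap {X Y : ℤ} (h : Rfx Q Y X) : Rfx (fun X Y => Q Y X) X Y := by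
  rcases h with ⟨h1, h2, h3, h4⟩ | ⟨h1, h2, h3, h4⟩ | ⟨h1, h2, h3, h4⟩ | ⟨h1, h2, h3, h4⟩
  · exact Or.inl ⟨h1, h3, h2, h4⟩
  · exact Or.inr (Or.inr (Or.inl ⟨h1, h3, h2, h4⟩))
  · exact Or.inr (Or.inl ⟨h1, h3, h2, h4⟩)
  · exact Or.inr (Or.inr (Or.inr ⟨h1, h3, h2, h4⟩))

/-- the other diagonal -/
theorem Geo.swap (G : Geo n m z par Q P AV AH Lt Vt) :
    Geo n m (z.2, z.1) par (fun X Y => Q Y X) (fun x y => P y x) (fun X Y => AH Y X)
      (fun X Y => AV Y X) (fun x y => Lt y x) (fun x y => Vt y x) where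
  hn := G.hn
  ok := fun x y h => G.ok y x (by
    rcases h with h | ⟨X, Y, h, h1, h2, h3, h4⟩
    · exact Or.inl fun h' => h ⟨h'.2, h'.1⟩
    · exact Or.inr ⟨Y, X, fun h' => h h'.swap, h3, h4, h1, h2⟩)
  nd1 := fun X Y h1 h2 => (G.nd1 Y X h1 h2).symm
  nd2 := fun X Y h1 h2 => G.nd2 Y X h2 h1
  bv := fun X Y h => G.bh Y X h
  bh := fun X Y h => G.bv Y X h
  cont := fun X Y h1 h2 => by
    have h3 := G.cont Y X (by
      rcases h1 with h | h | h | h
      · exact Or.inr (Or.inl h)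
      · exact Or.inl h
      · exact Or.inr (Or.inr (Or.inr h))
      · exact Or.inr (Or.inr (Or.inl h))) (by
      rcases h2 with h | h | h | h
      · exact Or.inr (Or.inr (Or.inl h))
      · exact Or.inr (Or.inr (Or.inr h))
      · exact Or.inl h
      · exact Or.inr (Or.inl h))
    exact ⟨h3.l, h3.r, h3.d, h3.u⟩
  sub := fun x y h => G.sub y x h
  lv := fun X Y x y h0 h1 h2 h3 h4 h5 => G.lh Y X y x h0 h1 h2 h3 h4 h5
  lh := fun X Y x y h0 h1 h2 h3 h4 h5 => G.lv Y X y x h0 h1 h2 h3 h4 h5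
  tL := fun X Y x y h0 h1 h2 h3 h4 h5 h6 h7 => G.tF Y X y x h0 h1 h2 h3 h4
    (by rw [add_comm]; exact h5) h6 h7
  tR := fun X Y x y h0 h1 h2 h3 h4 h5 h6 h7 => G.tC Y X y x h0 h1 h2 h3 h4
    (by rw [add_comm]; exact h5) h6 h7
  tF := fun X Y x y h0 h1 h2 h3 h4 h5 h6 h7 => G.tL Y X y x h0 h1 h2 h3 h4
    (by rw [add_comm]; exact h5) h6 h7
  tC := fun X Y x y h0 h1 h2 h3 h4 h5 h6 h7 => G.tR Y X y x h0 h1 h2 h3 h4
    (by rw [add_comm]; exact h5) h6 h7

lemma sub_neg' (t : ℤ) : -(t - 1) - 1 = -t := by ring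

lemma sub_neg'' (t : ℤ) : -(t - 1) = -t + 1 := by ring

lemma Rfx.neg {X Y : ℤ} (h : Rfx Q (-X) (-Y)) : Rfx (fun X Y => Q (-X - 1) (-Y - 1)) X Y := by
  unfold Rfx at h ⊢
  simp only [sub_neg']
  rcases h with ⟨h1, h2, h3, h4⟩ | ⟨h1, h2, h3, h4⟩ | ⟨h1, h2, h3, h4⟩ | ⟨h1, h2, h3, h4⟩
  · exact Or.inr (Or.inr (Or.inr ⟨h4, h3, h2, h1⟩))
  · exact Or.inr (Or.inr (Or.inl ⟨h4, h3, h2, h1⟩))
  · exact Or.inr (Or.inl ⟨h4, h3, h2, h1⟩)
  · exact Or.inl ⟨h4, h3, h2, h1⟩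

lemma LL.neg {x y : ℤ} (h : LL (fun x y => P (-x - 1) (-y - 1)) x y) : LR P (-x - 1) (-y - 1) := by
  obtain ⟨h1, h2, h3, h4⟩ := h
  simp only at h1 h2 h3 h4
  rw [show -(x + 1) - 1 = -x - 1 - 1 by ring] at h1
  rw [show -(y + 1) - 1 = -y - 1 - 1 by ring] at h3
  rw [show -(y - 1) - 1 = -y - 1 + 1 by ring] at h4
  exact ⟨h1, h2, h4, h3⟩

lemma LR.neg {x y : ℤ} (h : LR (fun x y => P (-x - 1) (-y - 1)) x y) : LL P (-x - 1) (-y - 1) := by
  obtain ⟨h1, h2, h3, h4⟩ := h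
  simp only at h1 h2 h3 h4
  rw [show -(x - 1) - 1 = -x - 1 + 1 by ring] at h1
  rw [show -(y + 1) - 1 = -y - 1 - 1 by ring] at h3
  rw [show -(y - 1) - 1 = -y - 1 + 1 by ring] at h4
  exact ⟨h1, h2, h4, h3⟩

lemma LF.neg {x y : ℤ} (h : LF (fun x y => P (-x - 1) (-y - 1)) x y) : LC P (-x - 1) (-y - 1) := by
  obtain ⟨h1, h2, h3, h4⟩ := h
  simp only at h1 h2 h3 h4
  rw [show -(y + 1) - 1 = -y - 1 - 1 by ring] at h1
  rw [show -(x + 1) - 1 = -x - 1 - 1 by ring] at h3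
  rw [show -(x - 1) - 1 = -x - 1 + 1 by ring] at h4
  exact ⟨h1, h2, h4, h3⟩

lemma LC.neg {x y : ℤ} (h : LC (fun x y => P (-x - 1) (-y - 1)) x y) : LF P (-x - 1) (-y - 1) := by
  obtain ⟨h1, h2, h3, h4⟩ := h
  simp only at h1 h2 h3 h4
  rw [show -(y - 1) - 1 = -y - 1 + 1 by ring] at h1
  rw [show -(x + 1) - 1 = -x - 1 - 1 by ring] at h3
  rw [show -(x - 1) - 1 = -x - 1 + 1 by ring] at h4
  exact ⟨h1, h2, h4, h3⟩

/-- rotation by `π` -/
theorem Geo.neg (G : Geo n m z par Q P AV AH Lt Vt) :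
    Geo n m (-z.1, -z.2) par (fun X Y => Q (-X - 1) (-Y - 1)) (fun x y => P (-x - 1) (-y - 1))
      (fun X Y => AV (-X) (-Y - 1)) (fun X Y => AH (-X - 1) (-Y)) (fun x y => Lt (-x - 1) (-y - 1))
      (fun x y => Vt (-x) (-y)) where
  hn := G.hn
  ok := fun x y h => by
    have hn : 0 < n := by have := G.hn; omega
    have e1 : ∀ t c : ℤ, -t - 1 - c = -(t - -c) - 1 := fun t c => by ring
    have h' : ¬ Tch n z (-x - 1) (-y - 1) ∨ TFl n z Q (-x - 1) (-y - 1) := by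
      rcases h with h | ⟨X, Y, h, h1, h2, h3, h4⟩
      · left
        intro hc
        apply h
        unfold Tch at hc ⊢
        simp only at hc ⊢
        rw [e1 x, e1 y, mod_neg' hn, mod_neg' hn] at hc
        omega
      · right
        have e3 : n * (-X) = -(n * X) := by ring
        have e4 : n * (-Y) = -(n * Y) := by ring
        simp only at h1 h2 h3 h4
        exact ⟨-X, -Y, fun h' => h h'.neg, by omega, by omega, by omega, by omega⟩
    have := G.ok _ _ h'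
    rw [e1 x, e1 y, div_neg' hn, div_neg' hn] at this
    exact this
  nd1 := fun X Y h1 h2 => by
    simp only [sub_neg'] at h1 h2 ⊢
    exact (G.nd1 (-X) (-Y) h2 h1).symm
  nd2 := fun X Y h1 h2 => by
    simp only [sub_neg'] at h1 h2 ⊢
    exact (G.nd2 (-X) (-Y) h2 h1).symm
  bv := fun X Y h => by
    have h1 := G.bv _ _ h
    simp only [sub_neg']
    exact fun h2 => h1 h2.symm
  bh := fun X Y h => by
    have h1 := G.bh _ _ h
    simp only [sub_neg']
    exact fun h2 => h1 h2.symm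
  cont := fun X Y h1 h2 => by
    unfold Two at h1
    unfold AtE at h2
    simp only [sub_neg'] at h1 h2
    have h3 := G.cont (-X) (-Y) (by
      rcases h1 with h | h | h | h
      · exact Or.inr (Or.inr (Or.inr h))
      · exact Or.inr (Or.inr (Or.inl h))
      · exact Or.inr (Or.inl h)
      · exact Or.inl h) (by
      rcases h2 with h | h | h | h
      · exact Or.inr (Or.inl h)
      · exact Or.inl h
      · exact Or.inr (Or.inr (Or.inr h))
      · exact Or.inr (Or.inr (Or.inl h)))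
    refine ⟨?_, ?_, ?_, ?_⟩ <;> simp only [sub_neg']
    · exact fun h => h3.u fun h4 => h h4.symm
    · exact fun h => h3.d fun h4 => h h4.symm
    · exact fun h => h3.r fun h4 => h h4.symm
    · exact fun h => h3.l fun h4 => h h4.symm
  sub := fun x y h => G.sub _ _ h
  lv := fun X Y x y h0 h1 h2 h3 h4 h5 => by
    have e3 : n * (-X) = -(n * X) := by ring
    have e4 : n * (-Y - 1) = -(n * Y) - n := by ring
    simp only at h2 h3 h4 h5
    exact G.lv (-X) (-Y - 1) (-x - 1) (-y - 1) h0 h1 (by omega) (by omega) (by omega) (by omega)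
  lh := fun X Y x y h0 h1 h2 h3 h4 h5 => by
    have e3 : n * (-Y) = -(n * Y) := by ring
    have e4 : n * (-X - 1) = -(n * X) - n := by ring
    simp only at h2 h3 h4 h5
    exact G.lh (-X - 1) (-Y) (-x - 1) (-y - 1) h0 h1 (by omega) (by omega) (by omega) (by omega)
  tL := fun X Y x y h0 h1 h2 h3 h4 h5 h6 h7 => by
    have e3 : n * (-X) = -(n * X) := by ring
    have e4 : n * (-Y - 1) = -(n * Y) - n := by ring
    simp only at h2 h3 h4
    have k6 := h6.neg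
    have k7 := h7.neg
    rw [show -(x - 1) - 1 = -x by ring] at k6 k7
    rw [show -(y - 1) - 1 = -y by ring] at k6
    exact G.tR (-X) (-Y - 1) (-x) (-y) h0 (fun h => G.bv _ _ h0 ⟨fun _ => h1, fun _ => h⟩)
      (by omega) (by omega) (by omega) (by omega) k7 k6
  tR := fun X Y x y h0 h1 h2 h3 h4 h5 h6 h7 => by
    have e3 : n * (-X) = -(n * X) := by ring
    have e4 : n * (-Y - 1) = -(n * Y) - n := by ring
    simp only at h2 h3 h4
    have k6 := h6.neg
    have k7 := h7.neg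
    rw [show -(y - 1) - 1 = -y by ring] at k6
    refine G.tL (-X) (-Y - 1) (-x) (-y) h0 ?_ (by omega) (by omega) (by omega) (by omega) k7 k6
    by_contra h
    exact G.bv _ _ h0 ⟨fun h' => absurd h' h, fun h' => absurd h' h1⟩
  tF := fun X Y x y h0 h1 h2 h3 h4 h5 h6 h7 => by
    have e3 : n * (-Y) = -(n * Y) := by ring
    have e4 : n * (-X - 1) = -(n * X) - n := by ring
    simp only at h2 h3 h4
    have k6 := h6.neg
    have k7 := h7.neg
    rw [show -(y - 1) - 1 = -y by ring] at k6 k7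
    rw [show -(x - 1) - 1 = -x by ring] at k6
    exact G.tC (-X - 1) (-Y) (-x) (-y) h0 (fun h => G.bh _ _ h0 ⟨fun _ => h1, fun _ => h⟩)
      (by omega) (by omega) (by omega) (by omega) k7 k6
  tC := fun X Y x y h0 h1 h2 h3 h4 h5 h6 h7 => by
    have e3 : n * (-Y) = -(n * Y) := by ring
    have e4 : n * (-X - 1) = -(n * X) - n := by ring
    simp only at h2 h3 h4
    have k6 := h6.neg
    have k7 := h7.neg
    rw [show -(x - 1) - 1 = -x by ring] at k6
    refine G.tF (-X - 1) (-Y) (-x) (-y) h0 ?_ (by omega) (by omega) (by omega) (by omega) k7 k6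
    by_contra h
    exact G.bh _ _ h0 ⟨fun h' => absurd h' h, fun h' => absurd h' h1⟩

/-- translation to the east -/
theorem Geo.shx (G : Geo n m z par Q P AV AH Lt Vt) :
    Geo n m (z.1 + 1, z.2) (1 - par) Q (fun x y => P (x - 1) y) AV AH
      (fun x y => Lt (x - 1) y) (fun x y => Vt (x - 1) y) where
  hn := G.hn
  ok := fun x y h => by
    have e : x - 1 - z.1 = x - (z.1 + 1) := by ring
    have := G.ok (x - 1) y (by
      rcases h with h | ⟨X, Y, h, h1, h2, h3, h4⟩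
      · left
        intro hc
        apply h
        unfold Tch at hc ⊢
        rw [e] at hc
        exact hc
      · simp only at h1 h2 h3 h4
        exact Or.inr ⟨X, Y, h, by omega, by omega, h3, h4⟩)
    rw [e] at this
    exact this
  nd1 := G.nd1
  nd2 := G.nd2
  bv := G.bv
  bh := G.bh
  cont := G.cont
  sub := fun x y h => G.sub _ _ h
  lv := fun X Y x y h0 h1 h2 h3 h4 h5 => by
    simp only at h2 h3 h4 h5
    exact G.lv X Y (x - 1) y h0 h1 (by omega) (by omega) h4 h5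
  lh := fun X Y x y h0 h1 h2 h3 h4 h5 => by
    simp only at h2 h3 h4 h5
    exact G.lh X Y (x - 1) y h0 h1 h2 h3 (by omega) (by omega)
  tL := fun X Y x y h0 h1 h2 h3 h4 h5 h6 h7 => by
    simp only at h2 h3 h4
    refine G.tL X Y (x - 1) y h0 h1 (by omega) h3 h4 (by omega) ?_ ?_
    · simpa [LL] using h6
    · simpa [LL] using h7
  tR := fun X Y x y h0 h1 h2 h3 h4 h5 h6 h7 => by
    simp only at h2 h3 h4
    exact G.tR X Y (x - 1) y h0 h1 (by omega) h3 h4 (by omega) h6 h7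
  tF := fun X Y x y h0 h1 h2 h3 h4 h5 h6 h7 => by
    simp only at h2 h3 h4
    refine G.tF X Y (x - 1) y h0 h1 h2 (by omega) (by omega) (by omega) ?_ ?_
    · simpa [LF] using h6
    · simpa [LF] using h7
  tC := fun X Y x y h0 h1 h2 h3 h4 h5 h6 h7 => by
    simp only at h2 h3 h4
    refine G.tC X Y (x - 1) y h0 h1 h2 (by omega) (by omega) (by omega) ?_ ?_
    · simpa [LC] using h6
    · simpa [LC] using h7

/-! ### Cells -/

lemma cell_eq {u X : ℤ} (hn : 0 < n) (h1 : n * X ≤ u) (h2 : u < n * X + n) : u / n = X := by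
  rw [Int.ediv_eq_iff_of_pos hn]
  constructor
  · rw [mul_comm]; exact h1
  · rw [mul_comm] at h1
    nlinarith

lemma mod_eq {u X : ℤ} (hn : 0 < n) (h1 : n * X ≤ u) (h2 : u < n * X + n) : u % n = u - n * X := by
  have := Int.emod_add_mul_ediv u n
  rw [cell_eq hn h1 h2] at this
  omega

/-- the cell of a tile -/
lemma Geo.cell (G : Geo n m z par Q P AV AH Lt Vt) {X Y x y : ℤ} (h1 : z.1 + n * X ≤ x)
    (h2 : x < z.1 + n * X + n) (h3 : z.2 + n * Y ≤ y) (h4 : y < z.2 + n * Y + n)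
    (h5 : (z.1 + n * X < x ∧ x + 1 < z.1 + n * X + n) ∨ (z.2 + n * Y < y ∧ y + 1 < z.2 + n * Y + n)) :
    P x y ↔ Q X Y := by
  have hn : 0 < n := by have := G.hn; omega
  have := G.ok x y (Or.inl (by
    unfold Tch
    rw [mod_eq (X := X) hn (by omega) (by omega), mod_eq (X := Y) hn (by omega) (by omega)]
    omega))
  rwa [cell_eq (X := X) hn (by omega) (by omega), cell_eq (X := Y) hn (by omega) (by omega)] at this

/-- the cell of a tile which touches a lattice point which is not a reflex corner -/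
lemma Geo.cellF (G : Geo n m z par Q P AV AH Lt Vt) {X Y x y : ℤ} (hF : ¬ Rfx Q X Y)
    (h1 : z.1 + n * X - 1 ≤ x) (h2 : x ≤ z.1 + n * X) (h3 : z.2 + n * Y - 1 ≤ y)
    (h4 : y ≤ z.2 + n * Y) :
    P x y ↔ Q (if z.1 + n * X ≤ x then X else X - 1) (if z.2 + n * Y ≤ y then Y else Y - 1) := by
  have hn := G.hn
  have h := G.ok x y (Or.inr ⟨X, Y, hF, h1, h2, h3, h4⟩)
  have e1 : n * (X - 1) = n * X - n := by ring
  have e2 : n * (Y - 1) = n * Y - n := by ring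
  have a1 : (x - z.1) / n = if z.1 + n * X ≤ x then X else X - 1 := by
    split_ifs with c
    · exact cell_eq (by omega) (by omega) (by omega)
    · exact cell_eq (by omega) (by omega) (by omega)
  have a2 : (y - z.2) / n = if z.2 + n * Y ≤ y then Y else Y - 1 := by
    split_ifs with c
    · exact cell_eq (by omega) (by omega) (by omega)
    · exact cell_eq (by omega) (by omega) (by omega)
  rwa [a1, a2] at h

end Pool.Agent.H31.Sp
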