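import Mathlib
import Pool.Agent.H13.Sp.XB
import Pool.Agent.H31.Sp.Coarse
import Pool.Agent.H31.Sp.Poly

set_option autoImplicit false
open Finset

/-! # The arcs of the unit boundary edges of a window, in terms of the polyomino

`aL Y`, `aR Y`, `aB`, `aT` : arcs at the left and right end of the row `Y` of cells, of the bottom and of the top.
`vA X Y`, `hA X Y` : arc of the vertical edge from `(X, Y)` to `(X, Y + 1)` and of the horizontal edge from
`(X, Y)` to `(X + 1, Y)`. `AVi i`, `AHi i` : the edges of the arc `i`. `Vti i` : inner ends of the ties of the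
arc `i`. -/

namespace Pool.Agent.H31.Sp

open Pool.Agent.H33.Q1 (lt)
open Pool.Agent.H46.Sp (Win)
open Pool.Agent.H74.Win (InP sh)
open Pool.Agent.H13.Sp
open Pool.Agent.H13.R45 (gp)
open Pool.Agent.H39.Q1 (TF)

section Defs

variable (D : Win) (n H : ℤ) (A B : ℤ → ℤ) (p : Bool) (s0 : ℤ)

/-- arc at the left end of the row `Y` of cells -/
def aL (Y : ℤ) : ℤ := rep D s0 (2 * D.h + 2 - (n * Y + 1))
/-- arc at the right end of the row `Y` of cells -/
def aR (Y : ℤ) : ℤ := rep D s0 (n * Y + 3)
/-- arc of the bottom -/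
def aB : ℤ := rep D s0 0
/-- arc of the top -/
def aT : ℤ := rep D s0 (D.h + 2)

open Classical in
/-- arc of a vertical boundary edge -/
noncomputable def vA (X Y : ℤ) : ℤ := if CQ H A B X Y then aL D n s0 Y else aR D n s0 Y

open Classical in
/-- arc of a horizontal boundary edge -/
noncomputable def hA (X Y : ℤ) : ℤ :=
  if CQ H A B X Y then (if Y = 0 then aB D s0 else if X < A (Y - 1) then aL D n s0 (Y - 1)
    else aR D n s0 (Y - 1))
  else (if Y = H then aT D s0 else if X < A Y then aL D n s0 Y else aR D n s0 Y)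

/-- vertical boundary edges of the arc `i` -/
def AVi (i X Y : ℤ) : Prop := ¬ (CQ H A B X Y ↔ CQ H A B (X - 1) Y) ∧ vA D n H A B s0 X Y = i

/-- horizontal boundary edges of the arc `i` -/
def AHi (i X Y : ℤ) : Prop := ¬ (CQ H A B X Y ↔ CQ H A B X (Y - 1)) ∧ hA D n H A B s0 X Y = i

/-- inner ends of the ties of the arc `i` -/
def Vti (i x y : ℤ) : Prop := (x + y) % 2 = (if colp D i = true then 0 else 1) ∧
  ∃ e ∈ TF (TA D p) (fmA D p s0) i, bA D p e = gp (x, y)

end Defs

end Pool.Agent.H31.Sp
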