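import Mathlib
import Pool.Agent.H31.Sp.Edge

set_option autoImplicit false
open Finset

/-! # Coarse windows: tiles near lattice points

`Coarse.geo_ok` : the field `ok` of `Geo`. -/

namespace Pool.Agent.H31.Sp

open Pool.Agent.H33.Q1 (lt)
open Pool.Agent.H46.Sp (Win)
open Pool.Agent.H74.Win (InP sh)

variable {D : Win} {n H : ℤ} {A B : ℤ → ℤ} {p : Bool} {x y X Y : ℤ}

/-- coordinates of a tile which touches a lattice point -/
lemma dm_eq (hn : 8 ≤ n) {u U : ℤ} (h1 : n * U - 1 ≤ u) (h2 : u ≤ n * U) :
    (u = n * U ∧ u / n = U ∧ u % n = 0) ∨ (u = n * U - 1 ∧ u / n = U - 1 ∧ u % n = n - 1) := by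
  by_cases h : u = n * U
  · left
    rw [h]
    exact ⟨rfl, Int.mul_ediv_cancel_left _ (by omega), Int.mul_emod_right _ _⟩
  · right
    have e : u = (n - 1) + n * (U - 1) := by
      have : n * (U - 1) = n * U - n := by ring
      omega
    refine ⟨by omega, ?_, ?_⟩
    · rw [e, Int.add_mul_ediv_left _ _ (by omega), Int.ediv_eq_zero_of_lt (by omega) (by omega),
        zero_add]
    · rw [e, Int.add_mul_emod_self_left, Int.emod_eq_of_lt (by omega) (by omega)]

lemma Coarse.inP_flat (C : Coarse D n H A B) (hR : ¬ Rfx (CQ H A B) X Y)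
    (h1 : n * X - 1 ≤ x) (h2 : x ≤ n * X) (h3 : n * Y - 1 ≤ y + sh p) (h4 : y + sh p ≤ n * Y) :
    InP D p x y ↔ CQ H A B (x / n) ((y + sh p) / n) := by
  have hn := C.hn
  refine ⟨fun h => ?_, C.inP_of⟩
  obtain ⟨k1, k2, k3, k4⟩ := h
  obtain ⟨g1, g2⟩ := C.row k1 k2
  have e1 := dm_eq hn h1 h2
  have e2 := dm_eq hn h3 h4
  have ea := C.a _ k1 k2
  have eb := C.b _ k1 k2
  set V := (y + sh p) / n with hV
  have hA : n * A V ≤ x → A V ≤ x / n := fun h => by
    rw [Int.le_ediv_iff_mul_le (by omega), mul_comm]; exact h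
  have hB : x < n * B V → x / n < B V := fun h => by
    rw [Int.ediv_lt_iff_lt_mul (by omega), mul_comm]; exact h
  refine ⟨g1, g2, hA ?_, hB ?_⟩
  · by_contra hc
    have ex : x = n * A V - 1 := by omega
    have hX : X = A V := by
      rcases e1 with ⟨f1, -⟩ | ⟨f1, -⟩
      · exfalso
        have : n * (A V - X) = 1 := by rw [mul_sub]; omega
        have := Int.eq_one_or_neg_one_of_mul_eq_one this
        omega
      · exact mul_left_cancel₀ (a := n) (by omega) (by omega)
    apply hR
    rcases ea with ea | ⟨-, ⟨f1, f2, f3⟩ | ⟨f1, f2, f3⟩⟩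
    · omega
    · have hY : Y = V + 1 := by omega
      have o1 := C.ov1 V g1 f2
      have o3 := C.AB V g1 g2
      subst hX hY
      left
      unfold CQ
      rw [add_sub_cancel_right]
      omega
    · have hY : Y = V := by omega
      have o1 := C.ov2 (V - 1) (by omega) (by omega)
      have o3 := C.AB V g1 g2
      rw [sub_add_cancel] at o1
      subst hX hY
      right; right; left
      unfold CQ
      omega
  · by_contra hc
    have ex : x = n * B V := by omega
    have hX : X = B V := by
      rcases e1 with ⟨f1, -⟩ | ⟨f1, -⟩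
      · exact mul_left_cancel₀ (a := n) (by omega) (by omega)
      · exfalso
        have : n * (X - B V) = 1 := by rw [mul_sub]; omega
        have := Int.eq_one_or_neg_one_of_mul_eq_one this
        omega
    apply hR
    rcases eb with eb | ⟨-, ⟨f1, f2, f3⟩ | ⟨f1, f2, f3⟩⟩
    · omega
    · have hY : Y = V + 1 := by omega
      have o1 := C.ov2 V g1 f2
      have o3 := C.AB V g1 g2
      subst hX hY
      right; left
      unfold CQ
      rw [add_sub_cancel_right]
      omega
    · have hY : Y = V := by omega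
      have o1 := C.ov1 (V - 1) (by omega) (by omega)
      have o3 := C.AB V g1 g2
      rw [sub_add_cancel] at o1
      subst hX hY
      right; right; right
      unfold CQ
      omega

/-- **the field `ok`** -/
lemma Coarse.geo_ok (C : Coarse D n H A B) (x y : ℤ)
    (h : ¬ Tch n (0, -sh p) x y ∨ TFl n (0, -sh p) (CQ H A B) x y) :
    InP D p x y ↔ CQ H A B ((x - (0, -sh p).1) / n) ((y - (0, -sh p).2) / n) := by
  simp only [sub_zero, sub_neg_eq_add]
  rcases h with h | ⟨X, Y, h0, h1, h2, h3, h4⟩
  · refine C.inP_iff ?_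
    unfold Tch at h
    simpa only [sub_zero, sub_neg_eq_add] using h
  · simp only at h1 h2 h3 h4
    exact C.inP_flat h0 (by omega) (by omega) (by omega) (by omega)

end Pool.Agent.H31.Sp
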