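import Mathlib
import Pool.Agent.H59.Q1.VE
import Pool.Agent.H31.Sp.Poly

set_option autoImplicit false
open Finset

/-! # The walls of a scaled polyomino in the flat frame

`Geo.wallE` : helper59's `WallE` at every unit boundary edge with the region on the right. -/

namespace Pool.Agent.H31.Sp

open Pool.Agent.H75.Perc Pool.Agent.H75.TwoArm Pool.Agent.H75.Four
open Pool.Agent.H99.NC Pool.Agent.H60.Q1 Pool.Agent.H59.Q1
open Pool.Agent.H23.TC (dG dR WV)

/-- labels and tied vertices of the frame -/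
structure Lab (L V : Finset (ℤ × ℤ)) (Lt Vt : ℤ → ℤ → Prop) : Prop where
  odd : ∀ l ∈ L, (l.1 + l.2) % 2 = 1
  mem : ∀ l : ℤ × ℤ, (l.1 + l.2) % 2 = 1 → (l ∈ L ↔ Lt ((l.1 + l.2 - 1) / 2) ((l.2 - l.1 - 1) / 2))
  ver : ∀ v : ℤ × ℤ, Vt (v.1 + v.2) (v.2 - v.1) → v ∈ V

/-- the largest number at most `h` with the parity of `c` -/
def sE (c h : ℤ) : ℤ := h - (c + h) % 2

/-- first tied vertex of a wall on the line `c` below the height `h` -/
def xE (c h : ℤ) : ℤ × ℤ := ((c - sE c h) / 2, (c + sE c h) / 2)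

/-- number of tied vertices between the heights `l` and `h`, minus one -/
def nE (c l h : ℤ) : ℤ := (sE c h - l) / 2

variable {n m D X Y c h l : ℤ} {z : ℤ × ℤ} {Q P AV AH Lt Vt : ℤ → ℤ → Prop} {L V : Finset (ℤ × ℤ)}

lemma sE_par : (c + sE c h) % 2 = 0 ∧ sE c h ≤ h ∧ h - 1 ≤ sE c h := by
  unfold sE; omega

lemma xE_sum : (xE c h).1 + (xE c h).2 = c := by
  have := sE_par (c := c) (h := h)
  unfold xE
  simp only
  omega

lemma xE_diff : (xE c h).2 - (xE c h).1 = sE c h := by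
  have := sE_par (c := c) (h := h)
  unfold xE
  simp only
  omega

/-- tiles of the layer near the edge are the tiles of the region -/
lemma Geo.lt_iff {par : ℤ} (G : Geo n m z par Q P AV AH Lt Vt) (hA : AV X Y) {p q : ℤ}
    (h1 : z.1 + n * X - m ≤ p) (h2 : p < z.1 + n * X + m) (h3 : z.2 + n * Y - m ≤ q)
    (h4 : q < z.2 + n * Y + n + m) : Lt p q ↔ P p q :=
  ⟨G.sub p q, fun h => G.lv X Y p q hA h h1 h2 h3 h4⟩

/-- the four cells around the lattice point `(X, Y)` -/
lemma Geo.four {par : ℤ} (G : Geo n m z par Q P AV AH Lt Vt) {p q : ℤ}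
    (h5 : z.1 + n * X - n < p ∧ p + 1 < z.1 + n * X + n)
    (h6 : z.2 + n * Y - n < q ∧ q + 1 < z.2 + n * Y + n)
    (h7 : p + 1 < z.1 + n * X ∨ z.1 + n * X < p ∨ q + 1 < z.2 + n * Y ∨ z.2 + n * Y < q) :
    P p q ↔ Q (if z.1 + n * X ≤ p then X else X - 1) (if z.2 + n * Y ≤ q then Y else Y - 1) := by
  have e1 : n * (X - 1) = n * X - n := by ring
  have e2 : n * (Y - 1) = n * Y - n := by ring
  split_ifs with a b b
  · exact G.cell a (by omega) b (by omega) (by omega)
  · exact G.cell a (by omega) (by omega) (by omega) (by omega)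
  · exact G.cell (by omega) (by omega) b (by omega) (by omega)
  · exact G.cell (by omega) (by omega) (by omega) (by omega) (by omega)

/-- coordinates of a label -/
lemma pq_of {l : ℤ × ℤ} (h : (l.1 + l.2) % 2 = 1) : ∃ p q : ℤ, p = (l.1 + l.2 - 1) / 2 ∧
    q = (l.2 - l.1 - 1) / 2 ∧ l.1 + l.2 = 2 * p + 1 ∧ l.2 - l.1 = 2 * q + 1 :=
  ⟨_, _, rfl, rfl, by omega, by omega⟩

/-! ### Heights of the ties -/

section

variable {par : ℤ} (G : Geo n m z par Q P AV AH Lt Vt)

include G

/-- rows which do not touch a lattice point -/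
lemma Geo.row (h1 : Q X Y) (h0 : ¬ Q (X - 1) Y) {y : ℤ} (a : z.2 + n * Y < y)
    (b : y + 1 < z.2 + n * Y + n) : P (z.1 + n * X) y ∧ ¬ P (z.1 + n * X - 1) y := by
  have hn := G.hn
  have e1 : n * (X - 1) = n * X - n := by ring
  exact ⟨(G.cell (X := X) (Y := Y) le_rfl (by omega) (by omega) (by omega) (by omega)).2 h1,
    fun h => h0 ((G.cell (X := X - 1) (Y := Y) (by omega) (by omega) (by omega) (by omega)
      (by omega)).1 h)⟩

lemma Geo.mid (h1 : Q X Y) (h0 : ¬ Q (X - 1) Y) {y : ℤ} (a : z.2 + n * Y + 2 ≤ y)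
    (b : y + 3 ≤ z.2 + n * Y + n) : LL P (z.1 + n * X - 1) y := by
  have g1 := G.row h1 h0 (y := y) (by omega) (by omega)
  have g2 := G.row h1 h0 (y := y + 1) (by omega) (by omega)
  have g3 := G.row h1 h0 (y := y - 1) (by omega) (by omega)
  exact ⟨by rw [sub_add_cancel]; exact g1.1, g1.2, g2.2, g3.2⟩

lemma Geo.midF (h1 : Q X Y) (h0 : ¬ Q X (Y - 1)) {x : ℤ} (a : z.1 + n * X + 2 ≤ x)
    (b : x + 3 ≤ z.1 + n * X + n) : LF P x (z.2 + n * Y - 1) := by
  have hn := G.hn
  have e1 : n * (Y - 1) = n * Y - n := by ring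
  have k1 : ∀ x, z.1 + n * X < x → x + 1 < z.1 + n * X + n → ¬ P x (z.2 + n * Y - 1) :=
    fun x g1 g2 h => h0 ((G.cell (X := X) (Y := Y - 1) (by omega) (by omega) (by omega) (by omega)
      (by omega)).1 h)
  refine ⟨?_, k1 x (by omega) (by omega), k1 _ (by omega) (by omega), k1 _ (by omega) (by omega)⟩
  rw [sub_add_cancel]
  exact (G.cell (X := X) (Y := Y) (by omega) (by omega) le_rfl (by omega) (by omega)).2 h1

lemma Geo.midC (h1 : ¬ Q X Y) (h0 : Q X (Y - 1)) {x : ℤ} (a : z.1 + n * X + 2 ≤ x)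
    (b : x + 3 ≤ z.1 + n * X + n) : LC P x (z.2 + n * Y) := by
  have hn := G.hn
  have e1 : n * (Y - 1) = n * Y - n := by ring
  have k1 : ∀ x, z.1 + n * X < x → x + 1 < z.1 + n * X + n → ¬ P x (z.2 + n * Y) :=
    fun x g1 g2 h => h1 ((G.cell (X := X) (Y := Y) (by omega) (by omega) (by omega) (by omega)
      (by omega)).1 h)
  refine ⟨?_, k1 x (by omega) (by omega), k1 _ (by omega) (by omega), k1 _ (by omega) (by omega)⟩
  exact (G.cell (X := X) (Y := Y - 1) (by omega) (by omega) (by omega) (by omega) (by omega)).2 h0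

lemma Geo.up1 (h1 : Q X Y) (h0 : ¬ Q (X - 1) Y) (hn : 8 ≤ n)
    (h : LL P (z.1 + n * X - 1) (z.2 + n * Y + n - 1)) :
    LL P (z.1 + n * X - 1) (z.2 + n * Y + n - 2) := by
  have g1 := G.row h1 h0 (y := z.2 + n * Y + n - 2) (by omega) (by omega)
  have g3 := G.row h1 h0 (y := z.2 + n * Y + n - 2 - 1) (by omega) (by omega)
  refine ⟨by rw [sub_add_cancel]; exact g1.1, g1.2, ?_, g3.2⟩
  rw [show z.2 + n * Y + n - 2 + 1 = z.2 + n * Y + n - 1 by ring]
  exact h.2.1

lemma Geo.dn1 (h1 : Q X Y) (h0 : ¬ Q (X - 1) Y) (hn : 8 ≤ n)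
    (h : LL P (z.1 + n * X - 1) (z.2 + n * Y)) : LL P (z.1 + n * X - 1) (z.2 + n * Y + 1) := by
  have g1 := G.row h1 h0 (y := z.2 + n * Y + 1) (by omega) (by omega)
  have g3 := G.row h1 h0 (y := z.2 + n * Y + 1 + 1) (by omega) (by omega)
  refine ⟨by rw [sub_add_cancel]; exact g1.1, g1.2, g3.2, ?_⟩
  rw [show z.2 + n * Y + 1 - 1 = z.2 + n * Y by ring]
  exact h.2.1

/-- a tie at the upper lattice point -/
lemma Geo.topfl (h0 : ¬ Q (X - 1) Y) (hn : 8 ≤ n)
    (h : LL P (z.1 + n * X - 1) (z.2 + n * Y + n)) : Q X (Y + 1) ∧ ¬ Q (X - 1) (Y + 1) := by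
  have e1 : n * (X - 1) = n * X - n := by ring
  have e2 : n * (Y + 1) = n * Y + n := by ring
  have q2 : ¬ Q (X - 1) (Y + 1) := fun hq => h.2.2.1
    ((G.cell (X := X - 1) (Y := Y + 1) (by omega) (by omega) (by omega) (by omega) (by omega)).2 hq)
  refine ⟨?_, q2⟩
  have hR : ¬ Rfx Q X (Y + 1) := by
    unfold Rfx
    rw [show Y + 1 - 1 = Y by ring]
    rintro (⟨-, -, g, -⟩ | ⟨g, -⟩ | ⟨g, -⟩ | ⟨g, -⟩)
    · exact q2 g
    · exact h0 g
    · exact h0 g
    · exact h0 g
  have := (G.cellF hR (x := z.1 + n * X - 1 + 1) (y := z.2 + n * Y + n) (by omega) (by omega)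
    (by omega) (by omega)).1 h.1
  rwa [if_pos (by omega), if_pos (by omega)] at this

/-- a tie at the lower lattice point -/
lemma Geo.botfl (h0 : ¬ Q (X - 1) Y) (hn : 8 ≤ n)
    (h : LL P (z.1 + n * X - 1) (z.2 + n * Y - 1)) : Q X (Y - 1) ∧ ¬ Q (X - 1) (Y - 1) := by
  have e1 : n * (X - 1) = n * X - n := by ring
  have e2 : n * (Y - 1) = n * Y - n := by ring
  have q2 : ¬ Q (X - 1) (Y - 1) := fun hq => h.2.2.2
    ((G.cell (X := X - 1) (Y := Y - 1) (by omega) (by omega) (by omega) (by omega) (by omega)).2 hq)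
  refine ⟨?_, q2⟩
  have hR : ¬ Rfx Q X Y := by
    unfold Rfx
    rintro (⟨-, -, g, -⟩ | ⟨g, -⟩ | ⟨g, -⟩ | ⟨g, -⟩)
    · exact h0 g
    · exact q2 g
    · exact q2 g
    · exact q2 g
  have := (G.cellF hR (x := z.1 + n * X - 1 + 1) (y := z.2 + n * Y - 1) (by omega) (by omega)
    (by omega) (by omega)).1 h.1
  rwa [if_pos (by omega), if_neg (by omega)] at this

/-- **the heights of the ties of an edge** -/
theorem Geo.heights (h1 : Q X Y) (h0 : ¬ Q (X - 1) Y) (hn : 16 ≤ n) : ∃ lo hi : ℤ,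
    (z.2 + n * Y ≤ lo ∧ lo ≤ z.2 + n * Y + 3) ∧ (z.2 + n * Y + n - 3 ≤ hi ∧ hi ≤ z.2 + n * Y + n) ∧
    (∀ y, z.2 + n * Y ≤ y → y ≤ z.2 + n * Y + n →
      ((LL P (z.1 + n * X - 1) (y - 1) ∧ LL P (z.1 + n * X - 1) y) ↔ lo ≤ y ∧ y ≤ hi)) ∧
    (lo = z.2 + n * Y → Q X (Y - 1) ∧ ¬ Q (X - 1) (Y - 1)) ∧
    (hi = z.2 + n * Y + n → Q X (Y + 1) ∧ ¬ Q (X - 1) (Y + 1)) := by
  set T : ℤ → Prop := fun y => LL P (z.1 + n * X - 1) y with hT
  set b := z.2 + n * Y with hb
  have m1 : ∀ y, b + 2 ≤ y → y + 3 ≤ b + n → T y := fun y g1 g2 => G.mid h1 h0 g1 g2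
  have u1 : T (b + n - 1) → T (b + n - 2) := G.up1 h1 h0 (by omega)
  have d1 : T b → T (b + 1) := G.dn1 h1 h0 (by omega)
  have hhi : ∃ hi, (b + n - 3 ≤ hi ∧ hi ≤ b + n) ∧ (∀ y, b + 4 ≤ y → y ≤ b + n →
      ((T (y - 1) ∧ T y) ↔ y ≤ hi)) ∧ (hi = b + n → T (b + n)) := by
    by_cases t1 : T (b + n - 1)
    · by_cases t0 : T (b + n)
      · refine ⟨b + n, by omega, fun y g1 g2 => ⟨fun _ => g2, fun _ => ?_⟩, fun _ => t0⟩
        have : ∀ y, b + 3 ≤ y → y ≤ b + n → T y := by
          intro y k1 k2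
          by_cases c1 : y + 3 ≤ b + n
          · exact m1 y (by omega) c1
          · have : y = b + n - 2 ∨ y = b + n - 1 ∨ y = b + n := by omega
            rcases this with rfl | rfl | rfl
            · exact u1 t1
            · exact t1
            · exact t0
        exact ⟨this _ (by omega) (by omega), this _ (by omega) g2⟩
      · refine ⟨b + n - 1, by omega, fun y g1 g2 => ⟨fun h => ?_, fun h => ?_⟩, fun h => by omega⟩
        · by_contra hc
          have : y = b + n := by omega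
          subst this
          exact t0 h.2
        · have : ∀ y, b + 3 ≤ y → y ≤ b + n - 1 → T y := by
            intro y k1 k2
            by_cases c1 : y + 3 ≤ b + n
            · exact m1 y (by omega) c1
            · have : y = b + n - 2 ∨ y = b + n - 1 := by omega
              rcases this with rfl | rfl
              · exact u1 t1
              · exact t1
          exact ⟨this _ (by omega) (by omega), this _ (by omega) h⟩
    · by_cases t2 : T (b + n - 2)
      · refine ⟨b + n - 2, by omega, fun y g1 g2 => ⟨fun h => ?_, fun h => ?_⟩, fun h => by omega⟩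
        · by_contra hc
          have : y = b + n ∨ y = b + n - 1 := by omega
          rcases this with rfl | rfl
          · exact t1 h.1
          · exact t1 h.2
        · have : ∀ y, b + 3 ≤ y → y ≤ b + n - 2 → T y := by
            intro y k1 k2
            by_cases c1 : y + 3 ≤ b + n
            · exact m1 y (by omega) c1
            · have : y = b + n - 2 := by omega
              rw [this]; exact t2
          exact ⟨this _ (by omega) (by omega), this _ (by omega) h⟩
      · refine ⟨b + n - 3, by omega, fun y g1 g2 => ⟨fun h => ?_, fun h => ?_⟩, fun h => by omega⟩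
        · by_contra hc
          have : y = b + n ∨ y = b + n - 1 ∨ y = b + n - 2 := by omega
          rcases this with rfl | rfl | rfl
          · exact t1 h.1
          · exact t1 h.2
          · exact t2 h.2
        · exact ⟨m1 _ (by omega) (by omega), m1 _ (by omega) (by omega)⟩
  have hlo : ∃ lo, (b ≤ lo ∧ lo ≤ b + 3) ∧ (∀ y, b ≤ y → y ≤ b + n - 5 →
      ((T (y - 1) ∧ T y) ↔ lo ≤ y)) ∧ (lo = b → T (b - 1)) := by
    by_cases t1 : T b
    · by_cases t0 : T (b - 1)
      · refine ⟨b, by omega, fun y g1 g2 => ⟨fun _ => g1, fun _ => ?_⟩, fun _ => t0⟩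
        have : ∀ y, b - 1 ≤ y → y ≤ b + n - 5 → T y := by
          intro y k1 k2
          by_cases c1 : b + 2 ≤ y
          · exact m1 y c1 (by omega)
          · have : y = b - 1 ∨ y = b ∨ y = b + 1 := by omega
            rcases this with rfl | rfl | rfl
            · exact t0
            · exact t1
            · exact d1 t1
        exact ⟨this _ (by omega) (by omega), this _ (by omega) g2⟩
      · refine ⟨b + 1, by omega, fun y g1 g2 => ⟨fun h => ?_, fun h => ?_⟩, fun h => by omega⟩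
        · by_contra hc
          have : y = b := by omega
          rw [this] at h
          exact t0 h.1
        · have : ∀ y, b ≤ y → y ≤ b + n - 5 → T y := by
            intro y k1 k2
            by_cases c1 : b + 2 ≤ y
            · exact m1 y c1 (by omega)
            · have : y = b ∨ y = b + 1 := by omega
              rcases this with rfl | rfl
              · exact t1
              · exact d1 t1
          exact ⟨this _ (by omega) (by omega), this _ (by omega) g2⟩
    · by_cases t2 : T (b + 1)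
      · refine ⟨b + 2, by omega, fun y g1 g2 => ⟨fun h => ?_, fun h => ?_⟩, fun h => by omega⟩
        · by_contra hc
          have : y = b ∨ y = b + 1 := by omega
          rcases this with k | k
          · rw [k] at h; exact t1 h.2
          · rw [k, add_sub_cancel_right] at h; exact t1 h.1
        · have : ∀ y, b + 1 ≤ y → y ≤ b + n - 5 → T y := by
            intro y k1 k2
            by_cases c1 : b + 2 ≤ y
            · exact m1 y c1 (by omega)
            · have : y = b + 1 := by omega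
              rw [this]; exact t2
          exact ⟨this _ (by omega) (by omega), this _ (by omega) g2⟩
      · refine ⟨b + 3, by omega, fun y g1 g2 => ⟨fun h => ?_, fun h => ?_⟩, fun h => by omega⟩
        · by_contra hc
          have : y = b ∨ y = b + 1 ∨ y = b + 2 := by omega
          rcases this with k | k | k
          · rw [k] at h; exact t1 h.2
          · rw [k] at h; exact t2 h.2
          · rw [k, show b + 2 - 1 = b + 1 by ring] at h; exact t2 h.1
        · exact ⟨m1 _ (by omega) (by omega), m1 _ (by omega) (by omega)⟩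
  obtain ⟨hi, k1, k2, k3⟩ := hhi
  obtain ⟨lo, k4, k5, k6⟩ := hlo
  refine ⟨lo, hi, k4, k1, ?_, ?_, ?_⟩
  · intro y g1 g2
    by_cases c1 : y ≤ b + n - 5
    · rw [k5 y g1 c1]
      exact ⟨fun h => ⟨h, by omega⟩, fun h => h.1⟩
    · rw [k2 y (by omega) g2]
      exact ⟨fun h => ⟨by omega, h⟩, fun h => h.2⟩
  · exact fun h => G.botfl h0 (by omega) (k6 h)
  · exact fun h => G.topfl h0 (by omega) (k3 h)

end

/-- **the wall** -/
theorem Geo.wallV (G : Geo n m z 0 Q P AV AH Lt Vt) (hLab : Lab L V Lt Vt) (hA : AV X Y)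
    (h1 : Q X Y) (h0 : ¬ Q (X - 1) Y) (hn : 16 ≤ n) (hD : 2 * D ≤ m) {l h : ℤ}
    (hl0 : z.2 + n * Y ≤ l) (hh0 : h ≤ z.2 + n * Y + n)
    (hties : ∀ y, l ≤ y → y ≤ h → LL P (z.1 + n * X - 1) (y - 1) ∧ LL P (z.1 + n * X - 1) y)
    (hfl : l = z.2 + n * Y → Q X (Y - 1) ∧ ¬ Q (X - 1) (Y - 1))
    (hfh : h = z.2 + n * Y + n → Q X (Y + 1) ∧ ¬ Q (X - 1) (Y + 1)) :
    WallV 1 L V (xE (z.1 + n * X) h) (nE (z.1 + n * X) l h) D := by
  have e1 : n * (X - 1) = n * X - n := by ring
  have e2 : n * (Y + 1) = n * Y + n := by ring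
  have hs := xE_sum (c := z.1 + n * X) (h := h)
  have hd := xE_diff (c := z.1 + n * X) (h := h)
  have hp := sE_par (c := z.1 + n * X) (h := h)
  set c := z.1 + n * X with hc
  set b := z.2 + n * Y with hb
  set x0 := xE c h with hx0
  set N := nE c l h with hN
  have hN1 : 2 * N ≤ sE c h - l := by rw [hN]; unfold nE; omega
  refine ⟨⟨Or.inr rfl, hLab.odd, ?_⟩, ?_⟩
  · intro t r hr0 hrt hrN hrD l' hl'
    unfold BR wp at hl'
    rw [mem_Bx] at hl'
    obtain ⟨h3, h4, h5⟩ := hl'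
    obtain ⟨p, q, hp', hq', g1, g2⟩ := pq_of h5
    rw [hLab.mem l' h5, ← hp', ← hq']
    simp only at h3 h4
    have b1 : c - 2 * r ≤ p ∧ p + 1 ≤ c + 2 * r := by omega
    have b2 : sE c h - 2 * t - 2 * r ≤ q ∧ q + 1 ≤ sE c h - 2 * t + 2 * r := by omega
    have b3 : (c - 2 * r < p ∧ p + 1 < c + 2 * r) ∨ (c - 1 ≤ p ∧ p ≤ c) ∨
        (sE c h - 2 * t - 2 * r < q ∧ q + 1 < sE c h - 2 * t + 2 * r) := by omega
    rw [G.lt_iff hA (by omega) (by omega) (by omega) (by omega)]
    unfold ht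
    have key : P p q ↔ c ≤ p := by
      by_cases hq0 : q = b
      · -- the lowest row
        have hlb : l = b := by omega
        obtain ⟨k1, k2⟩ := hfl hlb
        by_cases hp0 : c - 1 ≤ p ∧ p ≤ c
        · have hR : ¬ Rfx Q X Y := by
            unfold Rfx
            rintro (⟨-, -, g, -⟩ | ⟨g, -⟩ | ⟨g, -⟩ | ⟨g, -⟩)
            · exact h0 g
            · exact k2 g
            · exact k2 g
            · exact k2 g
          rw [G.cellF hR (x := p) (y := q) (by omega) (by omega) (by omega) (by omega),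
            if_pos (by omega : z.2 + n * Y ≤ q)]
          split_ifs with i1
          · exact ⟨fun _ => i1, fun _ => h1⟩
          · exact ⟨fun g => absurd g h0, fun g => absurd g i1⟩
        · by_cases hcp : c ≤ p
          · rw [G.cell (X := X) (Y := Y) (by omega) (by omega) (by omega) (by omega) (by omega)]
            exact ⟨fun _ => hcp, fun _ => h1⟩
          · rw [G.cell (X := X - 1) (Y := Y) (by omega) (by omega) (by omega) (by omega) (by omega)]
            exact ⟨fun g => absurd g h0, fun g => absurd g hcp⟩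
      · by_cases hq1 : q = b + n - 1
        · have hhb : h = b + n := by omega
          obtain ⟨k1, k2⟩ := hfh hhb
          by_cases hp0 : c - 1 ≤ p ∧ p ≤ c
          · have hR : ¬ Rfx Q X (Y + 1) := by
              unfold Rfx
              rw [show Y + 1 - 1 = Y by ring]
              rintro (⟨-, -, g, -⟩ | ⟨g, -⟩ | ⟨g, -⟩ | ⟨g, -⟩)
              · exact k2 g
              · exact h0 g
              · exact h0 g
              · exact h0 g
            rw [G.cellF hR (x := p) (y := q) (by omega) (by omega) (by omega) (by omega),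
              if_neg (by omega : ¬ z.2 + n * (Y + 1) ≤ q), show Y + 1 - 1 = Y by ring]
            split_ifs with i1
            · exact ⟨fun _ => i1, fun _ => h1⟩
            · exact ⟨fun g => absurd g h0, fun g => absurd g i1⟩
          · by_cases hcp : c ≤ p
            · rw [G.cell (X := X) (Y := Y) (by omega) (by omega) (by omega) (by omega) (by omega)]
              exact ⟨fun _ => hcp, fun _ => h1⟩
            · rw [G.cell (X := X - 1) (Y := Y) (by omega) (by omega) (by omega) (by omega)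
                (by omega)]
              exact ⟨fun g => absurd g h0, fun g => absurd g hcp⟩
        · by_cases hcp : c ≤ p
          · rw [G.cell (X := X) (Y := Y) (by omega) (by omega) (by omega) (by omega) (by omega)]
            exact ⟨fun _ => hcp, fun _ => h1⟩
          · rw [G.cell (X := X - 1) (Y := Y) (by omega) (by omega) (by omega) (by omega) (by omega)]
            exact ⟨fun g => absurd g h0, fun g => absurd g hcp⟩
    rw [key]
    constructor <;> intro <;> omega
  · intro t ht0 htN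
    refine hLab.ver _ ?_
    have e3 : (wp 1 x0 t).1 + (wp 1 x0 t).2 = c := by
      unfold wp; simp only; omega
    have e4 : (wp 1 x0 t).2 - (wp 1 x0 t).1 = sE c h - 2 * t := by
      unfold wp; simp only; omega
    rw [e3, e4]
    obtain ⟨g1, g2⟩ := hties (sE c h - 2 * t) (by omega) (by omega)
    exact G.tL X Y c _ hA h1 rfl (by omega) (by omega) (by omega) g1 g2

/-- the centre of an end of height `s` -/
def wE (n : ℤ) (z : ℤ × ℤ) (X Y : ℤ) : ℤ × ℤ :=
  ((z.1 + n * X - (z.2 + n * Y - (z.1 + n * X + (z.2 + n * Y)) % 2)) / 2,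
    (z.1 + n * X + (z.2 + n * Y - (z.1 + n * X + (z.2 + n * Y)) % 2)) / 2)

lemma wE_sum : (wE n z X Y).1 + (wE n z X Y).2 = z.1 + n * X := by
  unfold wE
  simp only
  omega

lemma wE_diff : z.2 + n * Y - 1 ≤ (wE n z X Y).2 - (wE n z X Y).1 ∧
    (wE n z X Y).2 - (wE n z X Y).1 ≤ z.2 + n * Y := by
  unfold wE
  simp only
  omega

/-- coordinates in the annulus -/
lemma ann_of {l w : ℤ × ℤ} {c t : ℤ} (hs : w.1 + w.2 = c) (hd : t - 1 ≤ w.2 - w.1 ∧ w.2 - w.1 ≤ t)
    (h1 : l ∈ BR w D) (h2 : l ∉ BR w 8) : ∃ p q : ℤ, p = (l.1 + l.2 - 1) / 2 ∧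
    q = (l.2 - l.1 - 1) / 2 ∧ (l.1 + l.2) % 2 = 1 ∧ l.1 + l.2 = 2 * p + 1 ∧ l.2 - l.1 = 2 * q + 1 ∧
    c - 2 * D ≤ p ∧ p + 1 ≤ c + 2 * D ∧ t - 2 * D ≤ q + 1 ∧ q + 1 ≤ t + 2 * D ∧
    (p + 1 < c ∨ c < p ∨ q + 1 < t ∨ t < q) := by
  unfold BR at h1 h2
  rw [mem_Bx] at h1 h2
  obtain ⟨h3, h4, h5⟩ := h1
  obtain ⟨p, q, hp, hq, g1, g2⟩ := pq_of h5
  refine ⟨p, q, hp, hq, h5, g1, g2, by omega, by omega, by omega, by omega, ?_⟩
  by_contra hc
  push Not at hc
  apply h2
  refine ⟨⟨by omega, by omega⟩, ⟨by omega, by omega⟩, h5⟩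

/-- a vertex of the annulus on the line of the wall -/
lemma ver_line {y w : ℤ × ℤ} {c t : ℤ} (hs : w.1 + w.2 = c)
    (hd : t - 1 ≤ w.2 - w.1 ∧ w.2 - w.1 ≤ t) (h1 : inR w D y) (h2 : ¬ inR w 8 y)
    (h3 : y.1 + y.2 = c) : (t - 2 * D - 1 ≤ y.2 - y.1 ∧ y.2 - y.1 ≤ t + 2 * D) ∧
    (y.2 - y.1 ≤ t - 16 ∨ t + 16 ≤ y.2 - y.1) ∧ (c + (y.2 - y.1)) % 2 = 0 := by
  rw [inR_iff] at h1 h2
  refine ⟨⟨by omega, by omega⟩, ?_, by omega⟩
  by_contra hc
  push Not at hc
  apply h2
  exact ⟨⟨by omega, by omega⟩, ⟨by omega, by omega⟩⟩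

/-- a vertex of the annulus on the horizontal line -/
lemma ver_hor {y w : ℤ × ℤ} {c t : ℤ} (hs : w.1 + w.2 = c)
    (hd : t - 1 ≤ w.2 - w.1 ∧ w.2 - w.1 ≤ t) (h1 : inR w D y) (h2 : ¬ inR w 8 y)
    (h3 : y.2 - y.1 = t) : (c - 2 * D - 1 ≤ y.1 + y.2 ∧ y.1 + y.2 ≤ c + 2 * D + 1) ∧
    (y.1 + y.2 ≤ c - 15 ∨ c + 15 ≤ y.1 + y.2) ∧ (y.1 + y.2 + t) % 2 = 0 := by
  rw [inR_iff] at h1 h2
  refine ⟨⟨by omega, by omega⟩, ?_, by omega⟩
  by_contra hc
  push Not at hc
  apply h2
  exact ⟨⟨by omega, by omega⟩, ⟨by omega, by omega⟩⟩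

/-- **the upper end** -/
theorem Geo.top (G : Geo n m z 0 Q P AV AH Lt Vt) (hLab : Lab L V Lt Vt) (hA : AV X Y)
    (h1 : Q X Y) (h0 : ¬ Q (X - 1) Y) (hD : 4 * D + 16 ≤ n)
    (hm : 2 * D + 4 ≤ m) : EndW L V (wE n z X (Y + 1)) D := by
  have e1 : n * (X - 1) = n * X - n := by ring
  have e2 : n * (Y + 1) = n * Y + n := by ring
  have hs := wE_sum (n := n) (z := z) (X := X) (Y := Y + 1)
  have hd := wE_diff (n := n) (z := z) (X := X) (Y := Y + 1)
  set w := wE n z X (Y + 1) with hw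
  set c := z.1 + n * X with hc
  have ht : z.2 + n * (Y + 1) = z.2 + n * Y + n := by rw [e2]; ring
  rw [ht] at hd
  set b := z.2 + n * Y with hb
  -- the region near the end
  have key : ∀ l : ℤ × ℤ, l ∈ BR w D → l ∉ BR w 8 → ∃ p q : ℤ, l.1 + l.2 = 2 * p + 1 ∧
      l.2 - l.1 = 2 * q + 1 ∧ (l ∈ L ↔ Q (if c ≤ p then X else X - 1)
        (if b + n ≤ q then Y + 1 else Y)) := by
    intro l hl1 hl2
    obtain ⟨p, q, hp, hq, g0, g1, g2, g3, g4, g5, g6, g7⟩ := ann_of hs hd hl1 hl2
    refine ⟨p, q, g1, g2, ?_⟩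
    rw [hLab.mem l g0, ← hp, ← hq, G.lt_iff hA (by omega) (by omega) (by omega) (by omega),
      G.four (X := X) (Y := Y + 1) (by omega) (by omega) (by omega)]
    rw [show Y + 1 - 1 = Y by ring, ht]
  have hvl : ∀ y : ℤ × ℤ, inR w D y → ¬ inR w 8 y → y.1 + y.2 = c → y.2 - y.1 < b + n → y ∈ V := by
    intro y g1 g2 g3 g4
    obtain ⟨a1, a2, a3⟩ := ver_line hs hd g1 g2 g3
    refine hLab.ver y ?_
    rw [g3]
    exact G.tL X Y _ _ hA h1 rfl (by omega) (by omega) (by omega)
      (G.mid h1 h0 (by omega) (by omega)) (G.mid h1 h0 (by omega) (by omega))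
  have a1 : |1 * (w.1 + w.2) - c| ≤ 3 := by rw [abs_le]; omega
  by_cases q1 : Q X (Y + 1)
  · by_cases q2 : Q (X - 1) (Y + 1)
    · -- reflex
      have hAH : AH (X - 1) (Y + 1) := (G.cont X (Y + 1)
        (Or.inr (Or.inr (Or.inl ⟨q1, by rw [show Y + 1 - 1 = Y by ring]; exact h1⟩)))
        (Or.inl (by rw [show Y + 1 - 1 = Y by ring]; exact hA))).l
        (by rw [show Y + 1 - 1 = Y by ring]; exact fun h => h0 (h.1 q2))
      refine .reflex 1 1 c (b + n) (Or.inl rfl) (Or.inl rfl) a1 (by rw [abs_le]; omega) ⟨?_, ?_⟩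
      · intro l hl1 hl2
        obtain ⟨p, q, g1, g2, g3⟩ := key l hl1 hl2
        rw [g3]
        unfold dR
        split_ifs with i1 i2 i2
        · exact ⟨fun _ => by omega, fun _ => q1⟩
        · exact ⟨fun _ => by omega, fun _ => h1⟩
        · exact ⟨fun _ => by omega, fun _ => q2⟩
        · exact ⟨fun h => absurd h h0, fun h => by omega⟩
      · rintro y g1 g2 (⟨g3, g4⟩ | ⟨g3, g4⟩)
        · exact hvl y g1 g2 (by omega) (by omega)
        · obtain ⟨a1, a2, a3⟩ := ver_hor hs hd g1 g2 (by omega)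
          refine hLab.ver y ?_
          have q0 : ¬ Q (X - 1) (Y + 1 - 1) := by rw [show Y + 1 - 1 = Y by ring]; exact h0
          have k1 := G.midF (X := X - 1) (Y := Y + 1) q2 q0 (x := y.1 + y.2 - 1) (by omega) (by omega)
          have k2 := G.midF (X := X - 1) (Y := Y + 1) q2 q0 (x := y.1 + y.2) (by omega) (by omega)
          have := G.tF (X - 1) (Y + 1) (y.1 + y.2) _ hAH q2 rfl (by omega) (by omega) (by omega)
            k1 k2
          rw [ht] at this
          rwa [show y.2 - y.1 = b + n by omega]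
    · -- flat
      have hAV : AV X (Y + 1) := (G.cont X (Y + 1)
        (Or.inr (Or.inr (Or.inl ⟨q1, by rw [show Y + 1 - 1 = Y by ring]; exact h1⟩)))
        (Or.inl (by rw [show Y + 1 - 1 = Y by ring]; exact hA))).u
        (fun h => q2 (h.1 q1))
      refine .flat 1 c (Or.inl rfl) a1 ⟨?_, ?_⟩
      · intro l hl1 hl2
        obtain ⟨p, q, g1, g2, g3⟩ := key l hl1 hl2
        rw [g3]
        split_ifs with i1 i2 i2
        · exact ⟨fun _ => by omega, fun _ => q1⟩
        · exact ⟨fun _ => by omega, fun _ => h1⟩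
        · exact ⟨fun h => absurd h q2, fun h => by omega⟩
        · exact ⟨fun h => absurd h h0, fun h => by omega⟩
      · intro y g1 g2 g3
        by_cases g4 : y.2 - y.1 < b + n
        · exact hvl y g1 g2 (by omega) g4
        · obtain ⟨a1, a2, a3⟩ := ver_line hs hd g1 g2 (by omega)
          refine hLab.ver y ?_
          have := G.tL X (Y + 1) _ (y.2 - y.1) hAV q1 rfl (by omega) (by omega) (by omega)
            (G.mid q1 q2 (by omega) (by omega)) (G.mid q1 q2 (by omega) (by omega))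
          rwa [show y.1 + y.2 = z.1 + n * X by omega]
  · -- convex
    have q2 : ¬ Q (X - 1) (Y + 1) := by
      intro h
      have := G.nd2 X (Y + 1) (by rw [show Y + 1 - 1 = Y by ring]; exact h1) h
      rw [show Y + 1 - 1 = Y by ring] at this
      exact this.elim h0 q1
    refine .convex 1 (-1) c (-(b + n)) (Or.inl rfl) (Or.inr rfl) a1 (by rw [abs_le]; omega) ⟨?_, ?_⟩
    · intro l hl1 hl2
      obtain ⟨p, q, g1, g2, g3⟩ := key l hl1 hl2
      rw [g3]
      unfold dG
      split_ifs with i1 i2 i2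
      · exact ⟨fun h => absurd h q1, fun h => by omega⟩
      · exact ⟨fun _ => by omega, fun _ => h1⟩
      · exact ⟨fun h => absurd h q2, fun h => by omega⟩
      · exact ⟨fun h => absurd h h0, fun h => by omega⟩
    · rintro y g1 g2 ⟨g3, g4⟩
      obtain ⟨a1, a2, a3⟩ := ver_line hs hd g1 g2 (by omega)
      exact hvl y g1 g2 (by omega) (by omega)

/-- **the lower end** -/
theorem Geo.bot (G : Geo n m z 0 Q P AV AH Lt Vt) (hLab : Lab L V Lt Vt) (hA : AV X Y)
    (h1 : Q X Y) (h0 : ¬ Q (X - 1) Y) (hD : 4 * D + 16 ≤ n)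
    (hm : 2 * D + 4 ≤ m) : EndW L V (wE n z X Y) D := by
  have e1 : n * (X - 1) = n * X - n := by ring
  have e2 : n * (Y - 1) = n * Y - n := by ring
  have hs := wE_sum (n := n) (z := z) (X := X) (Y := Y)
  have hd := wE_diff (n := n) (z := z) (X := X) (Y := Y)
  set w := wE n z X Y with hw
  set c := z.1 + n * X with hc
  set b := z.2 + n * Y with hb
  -- the region near the end
  have key : ∀ l : ℤ × ℤ, l ∈ BR w D → l ∉ BR w 8 → ∃ p q : ℤ, l.1 + l.2 = 2 * p + 1 ∧
      l.2 - l.1 = 2 * q + 1 ∧ (l ∈ L ↔ Q (if c ≤ p then X else X - 1)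
        (if b ≤ q then Y else Y - 1)) := by
    intro l hl1 hl2
    obtain ⟨p, q, hp, hq, g0, g1, g2, g3, g4, g5, g6, g7⟩ := ann_of hs hd hl1 hl2
    refine ⟨p, q, g1, g2, ?_⟩
    rw [hLab.mem l g0, ← hp, ← hq, G.lt_iff hA (by omega) (by omega) (by omega) (by omega),
      G.four (X := X) (Y := Y) (by omega) (by omega) (by omega)]
  have hvl : ∀ y : ℤ × ℤ, inR w D y → ¬ inR w 8 y → y.1 + y.2 = c → b < y.2 - y.1 → y ∈ V := by
    intro y g1 g2 g3 g4
    obtain ⟨a1, a2, a3⟩ := ver_line hs hd g1 g2 g3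
    refine hLab.ver y ?_
    rw [g3]
    exact G.tL X Y _ _ hA h1 rfl (by omega) (by omega) (by omega)
      (G.mid h1 h0 (by omega) (by omega)) (G.mid h1 h0 (by omega) (by omega))
  have a1 : |1 * (w.1 + w.2) - c| ≤ 3 := by rw [abs_le]; omega
  by_cases q1 : Q X (Y - 1)
  · by_cases q2 : Q (X - 1) (Y - 1)
    · -- reflex
      have hAH : AH (X - 1) Y := (G.cont X Y (Or.inr (Or.inr (Or.inl ⟨h1, q1⟩)))
        (Or.inr (Or.inl hA))).l (fun h => h0 (h.2 q2))
      refine .reflex 1 (-1) c (-b) (Or.inl rfl) (Or.inr rfl) a1 (by rw [abs_le]; omega) ⟨?_, ?_⟩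
      · intro l hl1 hl2
        obtain ⟨p, q, g1, g2, g3⟩ := key l hl1 hl2
        rw [g3]
        unfold dR
        split_ifs with i1 i2 i2
        · exact ⟨fun _ => by omega, fun _ => h1⟩
        · exact ⟨fun _ => by omega, fun _ => q1⟩
        · exact ⟨fun h => absurd h h0, fun h => by omega⟩
        · exact ⟨fun _ => by omega, fun _ => q2⟩
      · rintro y g1 g2 (⟨g3, g4⟩ | ⟨g3, g4⟩)
        · exact hvl y g1 g2 (by omega) (by omega)
        · obtain ⟨a1, a2, a3⟩ := ver_hor hs hd g1 g2 (by omega)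
          refine hLab.ver y ?_
          have k1 := G.midC (X := X - 1) (Y := Y) h0 q2 (x := y.1 + y.2 - 1) (by omega) (by omega)
          have k2 := G.midC (X := X - 1) (Y := Y) h0 q2 (x := y.1 + y.2) (by omega) (by omega)
          have := G.tC (X - 1) Y (y.1 + y.2) _ hAH h0 rfl (by omega) (by omega) (by omega) k1 k2
          rwa [show y.2 - y.1 = z.2 + n * Y by omega]
    · -- flat
      have hAV : AV X (Y - 1) := (G.cont X Y (Or.inr (Or.inr (Or.inl ⟨h1, q1⟩)))
        (Or.inr (Or.inl hA))).d (fun h => q2 (h.1 q1))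
      refine .flat 1 c (Or.inl rfl) a1 ⟨?_, ?_⟩
      · intro l hl1 hl2
        obtain ⟨p, q, g1, g2, g3⟩ := key l hl1 hl2
        rw [g3]
        split_ifs with i1 i2 i2
        · exact ⟨fun _ => by omega, fun _ => h1⟩
        · exact ⟨fun _ => by omega, fun _ => q1⟩
        · exact ⟨fun h => absurd h h0, fun h => by omega⟩
        · exact ⟨fun h => absurd h q2, fun h => by omega⟩
      · intro y g1 g2 g3
        by_cases g4 : b < y.2 - y.1
        · exact hvl y g1 g2 (by omega) g4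
        · obtain ⟨a1, a2, a3⟩ := ver_line hs hd g1 g2 (by omega)
          refine hLab.ver y ?_
          have := G.tL X (Y - 1) _ (y.2 - y.1) hAV q1 rfl (by omega) (by omega) (by omega)
            (G.mid q1 q2 (by omega) (by omega)) (G.mid q1 q2 (by omega) (by omega))
          rwa [show y.1 + y.2 = z.1 + n * X by omega]
  · -- convex
    have q2 : ¬ Q (X - 1) (Y - 1) := fun h => (G.nd1 X Y h h1).elim q1 h0
    refine .convex 1 1 c b (Or.inl rfl) (Or.inl rfl) a1 (by rw [abs_le]; omega) ⟨?_, ?_⟩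
    · intro l hl1 hl2
      obtain ⟨p, q, g1, g2, g3⟩ := key l hl1 hl2
      rw [g3]
      unfold dG
      split_ifs with i1 i2 i2
      · exact ⟨fun _ => by omega, fun _ => h1⟩
      · exact ⟨fun h => absurd h q1, fun h => by omega⟩
      · exact ⟨fun h => absurd h h0, fun h => by omega⟩
      · exact ⟨fun h => absurd h q2, fun h => by omega⟩
    · rintro y g1 g2 ⟨g3, g4⟩
      obtain ⟨a1, a2, a3⟩ := ver_line hs hd g1 g2 (by omega)
      exact hvl y g1 g2 (by omega) (by omega)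

/-- **a wall and its two ends** -/
theorem Geo.wallE (G : Geo n m z 0 Q P AV AH Lt Vt) (hLab : Lab L V Lt Vt) (hA : AV X Y)
    (h1 : Q X Y) (h0 : ¬ Q (X - 1) Y) (hD : 4 * D + 40 ≤ n) (hD0 : 0 ≤ D) (hm : 2 * D + 4 ≤ m)
    {l h : ℤ} (hl0 : z.2 + n * Y ≤ l) (hl1 : l ≤ z.2 + n * Y + 4) (hh0 : h ≤ z.2 + n * Y + n)
    (hh1 : z.2 + n * Y + n - 4 ≤ h)
    (hties : ∀ y, l ≤ y → y ≤ h → LL P (z.1 + n * X - 1) (y - 1) ∧ LL P (z.1 + n * X - 1) y)
    (hfl : l = z.2 + n * Y → Q X (Y - 1) ∧ ¬ Q (X - 1) (Y - 1))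
    (hfh : h = z.2 + n * Y + n → Q X (Y + 1) ∧ ¬ Q (X - 1) (Y + 1)) :
    WallE L V (xE (z.1 + n * X) h) (nE (z.1 + n * X) l h) D := by
  have e2 : n * (Y + 1) = n * Y + n := by ring
  have hs := xE_sum (c := z.1 + n * X) (h := h)
  have hd := xE_diff (c := z.1 + n * X) (h := h)
  have hp := sE_par (c := z.1 + n * X) (h := h)
  have hN1 : 2 * nE (z.1 + n * X) l h ≤ sE (z.1 + n * X) h - l ∧
      sE (z.1 + n * X) h - l ≤ 2 * nE (z.1 + n * X) l h + 1 := by unfold nE; omega
  have hn := G.hn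
  refine ⟨G.wallV hLab hA h1 h0 (by omega) (by omega) hl0 hh0 hties hfl hfh, by omega, ?_⟩
  rintro τ (rfl | rfl)
  · refine ⟨wE n z X (Y + 1), ?_, ?_, G.top hLab hA h1 h0 (by omega) hm⟩
    · have g1 := wE_sum (n := n) (z := z) (X := X) (Y := Y + 1)
      have g2 := wE_diff (n := n) (z := z) (X := X) (Y := Y + 1)
      unfold wp
      simp only
      rw [abs_le]
      omega
    · have g1 := wE_sum (n := n) (z := z) (X := X) (Y := Y + 1)
      have g2 := wE_diff (n := n) (z := z) (X := X) (Y := Y + 1)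
      unfold wp
      simp only
      rw [abs_le]
      omega
  · refine ⟨wE n z X Y, ?_, ?_, G.bot hLab hA h1 h0 (by omega) hm⟩
    · have g1 := wE_sum (n := n) (z := z) (X := X) (Y := Y)
      have g2 := wE_diff (n := n) (z := z) (X := X) (Y := Y)
      unfold wp
      simp only
      rw [abs_le]
      omega
    · have g1 := wE_sum (n := n) (z := z) (X := X) (Y := Y)
      have g2 := wE_diff (n := n) (z := z) (X := X) (Y := Y)
      unfold wp
      simp only
      rw [abs_le]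
      omega

end Pool.Agent.H31.Sp
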