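import Mathlib
import Pool.Agent.H31.Sp.Frame

set_option autoImplicit false
open Finset

/-! # Frames, second part

`HtF` : extreme tie points of an edge in the frame. `Geo.wallE'` : the wall between them. `HtF.ex` : they
exist. `Geo.shd` : shift by one for the closed colour. -/

namespace Pool.Agent.H31.Sp

open Pool.Agent.H75.Perc Pool.Agent.H75.TwoArm Pool.Agent.H75.Four
open Pool.Agent.H99.NC Pool.Agent.H60.Q1 Pool.Agent.H59.Q1

variable {n m D X Y c h l : ℤ} {z : ℤ × ℤ} {Q P AV AH Lt Vt : ℤ → ℤ → Prop} {L V : Finset (ℤ × ℤ)}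

/-- extreme tie points on the line `c`, lower end `b` of the edge -/
structure HtF (P : ℤ → ℤ → Prop) (n c b lo hi : ℤ) : Prop where
  lo0 : b ≤ lo
  lo1 : lo ≤ b + 3
  hi0 : b + n - 3 ≤ hi
  hi1 : hi ≤ b + n
  iff : ∀ y, b ≤ y → y ≤ b + n → ((LL P (c - 1) (y - 1) ∧ LL P (c - 1) y) ↔ lo ≤ y ∧ y ≤ hi)

/-- **existence** -/
theorem HtF.ex {par : ℤ} (G : Geo n m z par Q P AV AH Lt Vt) (h1 : Q X Y) (h0 : ¬ Q (X - 1) Y)
    (hn : 16 ≤ n) : ∃ lo hi, HtF P n (z.1 + n * X) (z.2 + n * Y) lo hi := by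
  obtain ⟨lo, hi, a, b, c, -, -⟩ := G.heights h1 h0 hn
  exact ⟨lo, hi, a.1, a.2, b.1, b.2, c⟩

/-- **a wall and its two ends** -/
theorem Geo.wallE' (G : Geo n m z 0 Q P AV AH Lt Vt) (hLab : Lab L V Lt Vt) (hA : AV X Y)
    (h1 : Q X Y) (h0 : ¬ Q (X - 1) Y) (hD : 4 * D + 40 ≤ n) (hD0 : 0 ≤ D) (hm : 2 * D + 4 ≤ m)
    {lo hi : ℤ} (hH : HtF P n (z.1 + n * X) (z.2 + n * Y) lo hi) :
    WallE L V (xE (z.1 + n * X) hi) (nE (z.1 + n * X) lo hi) D := by
  obtain ⟨a1, a2, a3, a4, a5⟩ := hH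
  refine G.wallE hLab hA h1 h0 hD hD0 hm a1 (by omega) a4 (by omega)
    (fun y g1 g2 => (a5 y (by omega) (by omega)).2 ⟨g1, g2⟩) (fun e => ?_) (fun e => ?_)
  · have := (a5 (z.2 + n * Y) le_rfl (by omega)).2 ⟨by omega, by omega⟩
    exact G.botfl h0 (by omega) this.1
  · have := (a5 (z.2 + n * Y + n) (by omega) le_rfl).2 ⟨by omega, by omega⟩
    exact G.topfl h0 (by omega) this.2

/-- parity of the inner ends of the colour `c` -/
def pc (c : Bool) : ℤ := if c = true then 0 else 1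

lemma pc_cases {c : Bool} : (c = true ∧ pc c = 0) ∨ (c = false ∧ pc c = 1) := by
  cases c <;> simp [pc]

/-- **the shift by the colour** -/
theorem Geo.shd {c : Bool} (G : Geo n m z (pc c) Q P AV AH Lt Vt) :
    Geo n m (z.1 + pc c, z.2) 0 Q (fun x y => P (x - pc c) y) AV AH
      (fun x y => Lt (x - pc c) y) (fun x y => Vt (x - pc c) y) := by
  cases c
  · have := G.shx
    exact this
  · have e : pc true = 0 := rfl
    rw [e] at G ⊢
    simp only [add_zero, sub_zero]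
    exact G

lemma LL_sh {d x y : ℤ} : LL (fun x y => P (x - d) y) x y ↔ LL P (x - d) y := by
  unfold LL
  beta_reduce
  rw [show x + 1 - d = x - d + 1 by ring]

lemma LL_swap {x y : ℤ} : LL (fun x y => P y x) x y ↔ LF P y x := Iff.rfl

lemma LL_neg {x y : ℤ} : LL (fun x y => P (-x - 1) (-y - 1)) x y ↔ LR P (-x - 1) (-y - 1) := by
  unfold LL LR
  beta_reduce
  rw [show -(x + 1) - 1 = -x - 1 - 1 by ring, show -(y + 1) - 1 = -y - 1 - 1 by ring,
    show -(y - 1) - 1 = -y - 1 + 1 by ring]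
  tauto

lemma LF_neg {x y : ℤ} : LF (fun x y => P (-x - 1) (-y - 1)) x y ↔ LC P (-x - 1) (-y - 1) := by
  unfold LF LC
  beta_reduce
  rw [show -(x + 1) - 1 = -x - 1 - 1 by ring, show -(y + 1) - 1 = -y - 1 - 1 by ring,
    show -(x - 1) - 1 = -x - 1 + 1 by ring]
  tauto

lemma LF_sh {d x y : ℤ} : LF (fun x y => P (x - d) y) x y ↔ LF P (x - d) y := by
  unfold LF
  beta_reduce
  rw [show x + 1 - d = x - d + 1 by ring, show x - 1 - d = x - d - 1 by ring]

lemma LC_sh {d x y : ℤ} : LC (fun x y => P (x - d) y) x y ↔ LC P (x - d) y := by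
  unfold LC
  beta_reduce
  rw [show x + 1 - d = x - d + 1 by ring, show x - 1 - d = x - d - 1 by ring]

lemma LR_sh {d x y : ℤ} : LR (fun x y => P (x - d) y) x y ↔ LR P (x - d) y := by
  unfold LR
  beta_reduce
  rw [show x - 1 - d = x - d - 1 by ring]

end Pool.Agent.H31.Sp
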