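import Mathlib
import Pool.Agent.H31.Sp.Edge

set_option autoImplicit false
open Finset

/-! # Coarse windows: layer tiles, arcs at the lattice points

`lyL` etc. : the layer tiles of helper13 are the layer tiles of `Poly`. `ArcB` : the arcs of the layer tiles
in terms of the unit edges. `ArcB.cont` : the field `cont` of `Geo`. -/

namespace Pool.Agent.H31.Sp

open Pool.Agent.H33.Q1 (lt tt tt_lt)
open Pool.Agent.H46.Sp (Win)
open Pool.Agent.H74.Win (InP sh)
open Pool.Agent.H42.Sp (Sd)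
open Pool.Agent.H13.Sp

variable {D : Win} {n H s0 i : ℤ} {A B : ℤ → ℤ} {p : Bool} {x y X Y : ℤ}

lemma lyL : LL (InP D p) x y ↔ LyA D p .L x y := by
  unfold LL LyA LyP
  rw [inP_iff, inP_iff, inP_iff, inP_iff, show y + 1 + sh p = y + sh p + 1 by ring,
    show y - 1 + sh p = y + sh p - 1 by ring]
  set V := y + sh p
  unfold PT
  constructor
  · rintro ⟨⟨h1, h2, h3, h4⟩, h5, h6, h7⟩
    have o1 := ov (D := D) h1 h2 h1 h2 (by omega) (by omega)
    refine ⟨h1, h2, by omega, fun h => ?_, fun h => ?_⟩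
    · have := ov (D := D) h1 h2 (show 0 ≤ V - 1 by omega) (by omega) (by omega) (by omega)
      omega
    · have := ov (D := D) h1 h2 (show 0 ≤ V + 1 by omega) (by omega) (by omega) (by omega)
      omega
  · rintro ⟨h1, h2, h3, h4, h5⟩
    have o1 := ov (D := D) h1 h2 h1 h2 (by omega) (by omega)
    refine ⟨⟨h1, h2, by omega, by omega⟩, by omega, fun h => ?_, fun h => ?_⟩
    · have := h5 h.2.1; omega
    · have := h4 (by omega); omega

lemma lyR : LR (InP D p) x y ↔ LyA D p .R x y := by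
  unfold LR LyA LyP
  rw [inP_iff, inP_iff, inP_iff, inP_iff, show y + 1 + sh p = y + sh p + 1 by ring,
    show y - 1 + sh p = y + sh p - 1 by ring]
  set V := y + sh p
  unfold PT
  constructor
  · rintro ⟨⟨h1, h2, h3, h4⟩, h5, h6, h7⟩
    have o1 := ov (D := D) h1 h2 h1 h2 (by omega) (by omega)
    refine ⟨h1, h2, by omega, fun h => ?_, fun h => ?_⟩
    · have := ov (D := D) (show 0 ≤ V - 1 by omega) (by omega) h1 h2 (by omega) (by omega)
      omega
    · have := ov (D := D) (show 0 ≤ V + 1 by omega) (by omega) h1 h2 (by omega) (by omega)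
      omega
  · rintro ⟨h1, h2, h3, h4, h5⟩
    have o1 := ov (D := D) h1 h2 h1 h2 (by omega) (by omega)
    refine ⟨⟨h1, h2, by omega, by omega⟩, by omega, fun h => ?_, fun h => ?_⟩
    · have := h5 h.2.1; omega
    · have := h4 (by omega); omega

lemma lyF : LF (InP D p) x y ↔ LyA D p .F x y := by
  unfold LF LyA LyP
  rw [inP_iff, inP_iff, inP_iff, inP_iff, show y + 1 + sh p = y + sh p + 1 by ring]
  set V := y + sh p
  unfold PT
  constructor
  · rintro ⟨⟨h1, h2, h3, h4⟩, h5, h6, h7⟩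
    refine ⟨by omega, by omega, by omega, by omega, fun h => ?_⟩
    have := ov (D := D) h (by omega) h (by omega) (by omega) (by omega)
    omega
  · rintro ⟨h1, h2, h3, h4, h5⟩
    refine ⟨⟨by omega, by omega, by omega, by omega⟩, fun h => ?_, fun h => ?_, fun h => ?_⟩
    · have := h5 h.1; omega
    · have := h5 h.1; omega
    · have := h5 h.1; omega

lemma lyC : LC (InP D p) x y ↔ LyA D p .C x y := by
  unfold LC LyA LyP
  rw [inP_iff, inP_iff, inP_iff, inP_iff, show y - 1 + sh p = y + sh p - 1 by ring]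
  set V := y + sh p
  unfold PT
  constructor
  · rintro ⟨⟨h1, h2, h3, h4⟩, h5, h6, h7⟩
    refine ⟨by omega, by omega, by omega, by omega, fun h => ?_⟩
    have := ov (D := D) (show 0 ≤ V by omega) h (by omega) h (by omega) (by omega)
    omega
  · rintro ⟨h1, h2, h3, h4, h5⟩
    refine ⟨⟨by omega, by omega, by omega, by omega⟩, fun h => ?_, fun h => ?_, fun h => ?_⟩
    · have := h5 h.2.1; omega
    · have := h5 h.2.1; omega
    · have := h5 h.2.1; omega

/-- **the arcs of the layer tiles** -/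
structure ArcB (D : Win) (n H : ℤ) (A B : ℤ → ℤ) (p : Bool) (s0 : ℤ) : Prop where
  L : ∀ u v, LyA D p .L u v → u + 1 = n * ((u + 1) / n) ∧
    CQ H A B ((u + 1) / n) ((v + sh p) / n) ∧ ¬ CQ H A B ((u + 1) / n - 1) ((v + sh p) / n) ∧
    arc D p s0 u v = aL D n s0 ((v + sh p) / n) ∧ arc D p s0 (u - 1) v = aL D n s0 ((v + sh p) / n)
  R : ∀ u v, LyA D p .R u v → u = n * (u / n) ∧
    CQ H A B (u / n - 1) ((v + sh p) / n) ∧ ¬ CQ H A B (u / n) ((v + sh p) / n) ∧
    arc D p s0 u v = aR D n s0 ((v + sh p) / n) ∧ arc D p s0 (u + 1) v = aR D n s0 ((v + sh p) / n)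
  F : ∀ u v, LyA D p .F u v → v + sh p + 1 = n * ((v + sh p + 1) / n) ∧
    CQ H A B (u / n) ((v + sh p + 1) / n) ∧ ¬ CQ H A B (u / n) ((v + sh p + 1) / n - 1) ∧
    arc D p s0 u v = hA D n H A B s0 (u / n) ((v + sh p + 1) / n) ∧
    arc D p s0 u (v - 1) = hA D n H A B s0 (u / n) ((v + sh p + 1) / n)
  C : ∀ u v, LyA D p .C u v → v + sh p = n * ((v + sh p) / n) ∧
    CQ H A B (u / n) ((v + sh p) / n - 1) ∧ ¬ CQ H A B (u / n) ((v + sh p) / n) ∧
    arc D p s0 u v = hA D n H A B s0 (u / n) ((v + sh p) / n) ∧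
    arc D p s0 u (v + 1) = hA D n H A B s0 (u / n) ((v + sh p) / n)
  eL : ∀ Y, 0 ≤ Y → Y + 1 < H → A Y = A (Y + 1) → aL D n s0 Y = aL D n s0 (Y + 1)
  eR : ∀ Y, 0 ≤ Y → Y + 1 < H → B Y = B (Y + 1) → aR D n s0 Y = aR D n s0 (Y + 1)

lemma vA_in (h : CQ H A B X Y) : vA D n H A B s0 X Y = aL D n s0 Y := by
  unfold vA; rw [if_pos h]

lemma vA_out (h : ¬ CQ H A B X Y) : vA D n H A B s0 X Y = aR D n s0 Y := by
  unfold vA; rw [if_neg h]

/-- all boundary edges at a lattice point with two neighbouring cells have one arc -/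
lemma ArcB.one (hB : ArcB D n H A B p s0) (hAB : ∀ Y, 0 ≤ Y → Y < H → A Y < B Y)
    (hT : Two (CQ H A B) X Y) : ∃ j,
    (¬ (CQ H A B X (Y - 1) ↔ CQ H A B (X - 1) (Y - 1)) → vA D n H A B s0 X (Y - 1) = j) ∧
    (¬ (CQ H A B X Y ↔ CQ H A B (X - 1) Y) → vA D n H A B s0 X Y = j) ∧
    (¬ (CQ H A B (X - 1) Y ↔ CQ H A B (X - 1) (Y - 1)) → hA D n H A B s0 (X - 1) Y = j) ∧
    (¬ (CQ H A B X Y ↔ CQ H A B X (Y - 1)) → hA D n H A B s0 X Y = j) := by
  by_cases q1 : CQ H A B (X - 1) (Y - 1) <;> by_cases q2 : CQ H A B X (Y - 1) <;>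
    by_cases q3 : CQ H A B (X - 1) Y <;> by_cases q4 : CQ H A B X Y
  · exact ⟨0, fun h => absurd (iff_of_true q2 q1) h, fun h => absurd (iff_of_true q4 q3) h,
      fun h => absurd (iff_of_true q3 q1) h, fun h => absurd (iff_of_true q4 q2) h⟩
  · -- `(X, Y)` is out
    refine ⟨aR D n s0 Y, fun h => absurd (iff_of_true q2 q1) h, fun h => vA_out q4,
      fun h => absurd (iff_of_true q3 q1) h, fun h => ?_⟩
    unfold hA
    rw [if_neg q4]
    unfold CQ at q1 q2 q3 q4
    rw [if_neg (by omega), if_neg (by omega)]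
  · -- `(X - 1, Y)` is out
    refine ⟨aL D n s0 Y, fun h => absurd (iff_of_true q2 q1) h, fun h => vA_in q4,
      fun h => ?_, fun h => absurd (iff_of_true q4 q2) h⟩
    unfold hA
    rw [if_neg q3]
    unfold CQ at q1 q2 q3 q4
    rw [if_neg (by omega), if_pos (by omega)]
  · -- ceiling
    refine ⟨hA D n H A B s0 X Y, fun h => absurd (iff_of_true q2 q1) h,
      fun h => absurd (iff_of_false q4 q3) h, fun h => ?_, fun h => rfl⟩
    unfold hA
    rw [if_neg q3, if_neg q4]
    by_cases hY : Y = H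
    · rw [if_pos hY, if_pos hY]
    · rw [if_neg hY, if_neg hY]
      unfold CQ at q1 q2 q3 q4
      have := hAB Y (by omega) (by omega)
      by_cases hx : X < A Y
      · rw [if_pos hx, if_pos (by omega)]
      · rw [if_neg hx, if_neg (by omega)]
  · -- `(X, Y - 1)` is out
    refine ⟨aR D n s0 (Y - 1), fun h => vA_out q2, fun h => absurd (iff_of_true q4 q3) h,
      fun h => absurd (iff_of_true q3 q1) h, fun h => ?_⟩
    unfold hA
    rw [if_pos q4]
    unfold CQ at q1 q2 q3 q4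
    rw [if_neg (by omega), if_neg (by omega)]
  · -- right wall
    refine ⟨aR D n s0 Y, fun h => ?_, fun h => vA_out q4, fun h => absurd (iff_of_true q3 q1) h,
      fun h => absurd (iff_of_false q4 q2) h⟩
    rw [vA_out q2]
    unfold CQ at q1 q2 q3 q4
    have := hB.eR (Y - 1) (by omega) (by omega) (by rw [sub_add_cancel]; omega)
    rwa [sub_add_cancel] at this
  · exfalso
    unfold CQ at q1 q2 q3 q4
    unfold Two CQ at hT
    omega
  · exfalso
    unfold Two at hT
    tauto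
  · -- `(X - 1, Y - 1)` is out
    refine ⟨aL D n s0 (Y - 1), fun h => vA_in q2, fun h => absurd (iff_of_true q4 q3) h,
      fun h => ?_, fun h => absurd (iff_of_true q4 q2) h⟩
    unfold hA
    rw [if_pos q3]
    unfold CQ at q1 q2 q3 q4
    rw [if_neg (by omega), if_pos (by omega)]
  · exfalso
    unfold CQ at q1 q2 q3 q4
    unfold Two CQ at hT
    omega
  · -- left wall
    refine ⟨aL D n s0 Y, fun h => ?_, fun h => vA_in q4, fun h => absurd (iff_of_false q3 q1) h,
      fun h => absurd (iff_of_true q4 q2) h⟩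
    rw [vA_in q2]
    unfold CQ at q1 q2 q3 q4
    have := hB.eL (Y - 1) (by omega) (by omega) (by rw [sub_add_cancel]; omega)
    rwa [sub_add_cancel] at this
  · exfalso
    unfold Two at hT
    tauto
  · -- floor
    refine ⟨hA D n H A B s0 X Y, fun h => absurd (iff_of_false q2 q1) h,
      fun h => absurd (iff_of_true q4 q3) h, fun h => ?_, fun h => rfl⟩
    unfold hA
    rw [if_pos q3, if_pos q4]
    by_cases hY : Y = 0
    · rw [if_pos hY, if_pos hY]
    · rw [if_neg hY, if_neg hY]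
      unfold CQ at q1 q2 q3 q4
      have := hAB (Y - 1) (by omega) (by omega)
      by_cases hx : X < A (Y - 1)
      · rw [if_pos hx, if_pos (by omega)]
      · rw [if_neg hx, if_neg (by omega)]
  · exfalso
    unfold Two at hT
    tauto
  · exfalso
    unfold Two at hT
    tauto
  · exfalso
    unfold Two at hT
    tauto

/-- **the field `cont`** -/
lemma ArcB.cont (hB : ArcB D n H A B p s0) (hAB : ∀ Y, 0 ≤ Y → Y < H → A Y < B Y) (X Y : ℤ) (hT : Two (CQ H A B) X Y)
    (hE : AtE (AVi D n H A B s0 i) (AHi D n H A B s0 i) X Y) :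
    FullE (CQ H A B) (AVi D n H A B s0 i) (AHi D n H A B s0 i) X Y := by
  obtain ⟨j, h1, h2, h3, h4⟩ := hB.one hAB hT
  have hj : j = i := by
    rcases hE with h | h | h | h
    · rw [← h1 h.1]; exact h.2
    · rw [← h2 h.1]; exact h.2
    · rw [← h3 h.1]; exact h.2
    · rw [← h4 h.1]; exact h.2
  subst hj
  exact ⟨fun h => ⟨h, h1 h⟩, fun h => ⟨h, h2 h⟩, fun h => ⟨h, h3 h⟩, fun h => ⟨h, h4 h⟩⟩

end Pool.Agent.H31.Sp
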