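import Mathlib
import Pool.Agent.H31.Sp.GeoC
import Pool.Agent.H31.Sp.GeoA

set_option autoImplicit false
open Finset

/-! # The geometry of one arc of a coarse window

`geoX` : `Geo` for the arc `i` of a coarse window. -/

namespace Pool.Agent.H31.Sp

open Pool.Agent.H33.Q1 (lt tt tt_lt)
open Pool.Agent.H46.Sp (Win)
open Pool.Agent.H74.Win (InP sh natc)
open Pool.Agent.H42.Sp (Sd)
open Pool.Agent.H13.Sp
open Pool.Agent.H13.R45 (gp)
open Pool.Agent.H39.Q1 (TF mem_TF)

variable {D : Win} {n m H s0 i : ℤ} {A B : ℤ → ℤ} {p : Bool} {x y X Y Z u v : ℤ} {c : Bool} {s : Sd}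

/-- the geometry without arcs -/
lemma geo0 (C : Coarse D n H A B) : Geo n 0 (0, -sh p) 0 (CQ H A B) (InP D p) (fun _ _ => False)
    (fun _ _ => False) (fun _ _ => False) (fun _ _ => False) where
  hn := by have := C.hn; omega
  ok := C.geo_ok
  nd1 := fun X Y => C.nd1
  nd2 := fun X Y => C.nd2
  bv := fun _ _ h => h.elim
  bh := fun _ _ h => h.elim
  cont := fun _ _ _ h => by unfold AtE at h; tauto
  sub := fun _ _ h => h.elim
  lv := fun _ _ _ _ h => h.elim
  lh := fun _ _ _ _ h => h.elim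
  tL := fun _ _ _ _ h => h.elim
  tR := fun _ _ _ _ h => h.elim
  tF := fun _ _ _ _ h => h.elim
  tC := fun _ _ _ _ h => h.elim

lemma Geo.midR {z : ℤ × ℤ} {par : ℤ} {Q P AV AH Lt Vt : ℤ → ℤ → Prop}
    (G : Geo n m z par Q P AV AH Lt Vt) (h1 : ¬ Q X Y) (h0 : Q (X - 1) Y) {y : ℤ}
    (a : z.2 + n * Y + 2 ≤ y) (b : y + 3 ≤ z.2 + n * Y + n) : LR P (z.1 + n * X) y := by
  have hn := G.hn
  have e1 : n * (X - 1) = n * X - n := by ring
  have k1 : ∀ y, z.2 + n * Y < y → y + 1 < z.2 + n * Y + n → ¬ P (z.1 + n * X) y :=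
    fun y g1 g2 h => h1 ((G.cell (X := X) (Y := Y) (by omega) (by omega) (by omega) (by omega)
      (by omega)).1 h)
  refine ⟨?_, k1 y (by omega) (by omega), k1 _ (by omega) (by omega), k1 _ (by omega) (by omega)⟩
  exact (G.cell (X := X - 1) (Y := Y) (by omega) (by omega) (by omega) (by omega) (by omega)).2 h0

lemma Coarse.midL (C : Coarse D n H A B) (h1 : CQ H A B X Y) (h0 : ¬ CQ H A B (X - 1) Y)
    (a : n * Y + 2 ≤ v + sh p) (b : v + sh p + 3 ≤ n * Y + n) : LyA D p .L (n * X - 1) v := by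
  have := (geo0 (p := p) C).mid h1 h0 (y := v) (by simp only; omega) (by simp only; omega)
  rw [← lyL]
  simpa only [zero_add] using this

lemma Coarse.midR (C : Coarse D n H A B) (h1 : ¬ CQ H A B X Y) (h0 : CQ H A B (X - 1) Y)
    (a : n * Y + 2 ≤ v + sh p) (b : v + sh p + 3 ≤ n * Y + n) : LyA D p .R (n * X) v := by
  have := (geo0 (p := p) C).midR h1 h0 (y := v) (by simp only; omega) (by simp only; omega)
  rw [← lyR]
  simpa only [zero_add] using this

lemma Coarse.midF (C : Coarse D n H A B) (h1 : CQ H A B X Y) (h0 : ¬ CQ H A B X (Y - 1))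
    (a : n * X + 2 ≤ u) (b : u + 3 ≤ n * X + n) : LyA D p .F u (n * Y - sh p - 1) := by
  have := (geo0 (p := p) C).midF h1 h0 (x := u) (by simp only; omega) (by simp only; omega)
  rw [← lyF]
  simp only at this
  rwa [show -sh p + n * Y - 1 = n * Y - sh p - 1 by ring] at this

lemma Coarse.midC (C : Coarse D n H A B) (h1 : ¬ CQ H A B X Y) (h0 : CQ H A B X (Y - 1))
    (a : n * X + 2 ≤ u) (b : u + 3 ≤ n * X + n) : LyA D p .C u (n * Y - sh p) := by
  have := (geo0 (p := p) C).midC h1 h0 (x := u) (by simp only; omega) (by simp only; omega)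
  rw [← lyC]
  simp only at this
  rwa [show -sh p + n * Y = n * Y - sh p by ring] at this

namespace ArcB

variable (hB : ArcB D n H A B p s0) (C : Coarse D n H A B)

include hB C

/-- arcs of the layer tiles of the kind `L` at the edge `(X, Y)` and its neighbours -/
lemma arL (hA : AVi D n H A B s0 i X Y) (h1 : CQ H A B X Y) (h : LyA D p .L (n * X - 1) v)
    (a : n * Y - 1 ≤ v + sh p) (b : v + sh p ≤ n * Y + n) : Ar D p s0 i .L (n * X - 1) v := by
  have hn := C.hn
  obtain ⟨g1, g2, g3, g4, g5⟩ := hB.L _ _ h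
  rw [sub_add_cancel, Int.mul_ediv_cancel_left _ (by omega)] at g2 g3
  have h0 : ¬ CQ H A B (X - 1) Y := fun h => hA.1 (iff_of_true h1 h)
  have k := dv_near (Y := Y) (n := n) (by omega) a b (by omega)
  have e : aL D n s0 ((v + sh p) / n) = i := by
    rw [hB.sameL h1 h0 g2 g3 k.1 k.2, ← vA_in h1]; exact hA.2
  refine ⟨g4.trans e, ?_⟩
  simp only [dr, sub_zero]
  exact g5.trans e

lemma arR (hA : AVi D n H A B s0 i X Y) (h1 : ¬ CQ H A B X Y) (h : LyA D p .R (n * X) v)
    (a : n * Y - 1 ≤ v + sh p) (b : v + sh p ≤ n * Y + n) : Ar D p s0 i .R (n * X) v := by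
  have hn := C.hn
  obtain ⟨g1, g2, g3, g4, g5⟩ := hB.R _ _ h
  rw [Int.mul_ediv_cancel_left _ (by omega)] at g2 g3
  have h0 : CQ H A B (X - 1) Y := by
    by_contra h; exact hA.1 (iff_of_false h1 h)
  have k := dv_near (Y := Y) (n := n) (by omega) a b (by omega)
  have e : aR D n s0 ((v + sh p) / n) = i := by
    rw [hB.sameR h1 h0 g3 g2 k.1 k.2, ← vA_out h1]; exact hA.2
  refine ⟨g4.trans e, ?_⟩
  simp only [dr, sub_zero, sub_neg_eq_add]
  exact g5.trans e

omit hB in
/-- neighbouring edges of a floor have one arc -/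
lemma sameF (h1 : CQ H A B X Y) (h0 : ¬ CQ H A B X (Y - 1)) (h1' : CQ H A B Z Y)
    (h0' : ¬ CQ H A B Z (Y - 1)) (h2 : X ≤ Z + 1) (h3 : Z ≤ X + 1) :
    hA D n H A B s0 Z Y = hA D n H A B s0 X Y := by
  unfold hA
  rw [if_pos h1, if_pos h1']
  by_cases hY : Y = 0
  · rw [if_pos hY, if_pos hY]
  · rw [if_neg hY, if_neg hY]
    unfold CQ at *
    have := C.AB (Y - 1) (by omega) (by omega)
    by_cases hx : X < A (Y - 1)
    · rw [if_pos hx, if_pos (by omega)]
    · rw [if_neg hx, if_neg (by omega)]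

omit hB in
/-- neighbouring edges of a ceiling have one arc -/
lemma sameC (h1 : ¬ CQ H A B X Y) (h0 : CQ H A B X (Y - 1)) (h1' : ¬ CQ H A B Z Y)
    (_h0' : CQ H A B Z (Y - 1)) (h2 : X ≤ Z + 1) (h3 : Z ≤ X + 1) :
    hA D n H A B s0 Z Y = hA D n H A B s0 X Y := by
  unfold hA
  rw [if_neg h1, if_neg h1']
  by_cases hY : Y = H
  · rw [if_pos hY, if_pos hY]
  · rw [if_neg hY, if_neg hY]
    unfold CQ at *
    have := C.AB Y (by omega) (by omega)
    by_cases hx : X < A Y
    · rw [if_pos hx, if_pos (by omega)]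
    · rw [if_neg hx, if_neg (by omega)]

lemma arF (hH : AHi D n H A B s0 i X Y) (h1 : CQ H A B X Y)
    (h : LyA D p .F u (n * Y - sh p - 1)) (a : n * X - 1 ≤ u) (b : u ≤ n * X + n) :
    Ar D p s0 i .F u (n * Y - sh p - 1) := by
  have hn := C.hn
  obtain ⟨g1, g2, g3, g4, g5⟩ := hB.F _ _ h
  rw [show n * Y - sh p - 1 + sh p + 1 = n * Y by ring, Int.mul_ediv_cancel_left _ (by omega)]
    at g2 g3 g4 g5
  have h0 : ¬ CQ H A B X (Y - 1) := fun h => hH.1 (iff_of_true h1 h)
  have k := dv_near (Y := X) (n := n) (by omega) a b (by omega)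
  have e : hA D n H A B s0 (u / n) Y = i := by
    rw [sameF C h1 h0 g2 g3 k.1 k.2]; exact hH.2
  refine ⟨g4.trans e, ?_⟩
  simp only [dr, sub_zero]
  exact g5.trans e

lemma arC (hH : AHi D n H A B s0 i X Y) (h1 : ¬ CQ H A B X Y)
    (h : LyA D p .C u (n * Y - sh p)) (a : n * X - 1 ≤ u) (b : u ≤ n * X + n) :
    Ar D p s0 i .C u (n * Y - sh p) := by
  have hn := C.hn
  obtain ⟨g1, g2, g3, g4, g5⟩ := hB.C _ _ h
  rw [show n * Y - sh p + sh p = n * Y by ring, Int.mul_ediv_cancel_left _ (by omega)]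
    at g2 g3 g4 g5
  have h0 : CQ H A B X (Y - 1) := by
    by_contra h; exact hH.1 (iff_of_false h1 h)
  have k := dv_near (Y := X) (n := n) (by omega) a b (by omega)
  have e : hA D n H A B s0 (u / n) Y = i := by
    rw [sameC C h1 h0 g3 g2 k.1 k.2]; exact hH.2
  refine ⟨g4.trans e, ?_⟩
  simp only [dr, sub_zero, sub_neg_eq_add]
  exact g5.trans e

/-- a layer tile of the arc `i` near a vertical edge -/
lemma exV (hA : AVi D n H A B s0 i X Y) (a : n * Y + 2 ≤ v + sh p) (b : v + sh p + 3 ≤ n * Y + n) :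
    ∃ u, (u = n * X - 1 ∨ u = n * X) ∧ ¬ InP D p u v ∧ arc D p s0 u v = i := by
  by_cases h1 : CQ H A B X Y
  · have h0 : ¬ CQ H A B (X - 1) Y := fun h => hA.1 (iff_of_true h1 h)
    have h := C.midL (p := p) h1 h0 a b
    exact ⟨_, Or.inl rfl, h.out, (hB.arL C hA h1 h (by omega) (by omega)).1⟩
  · have h0 : CQ H A B (X - 1) Y := by
      by_contra h; exact hA.1 (iff_of_false h1 h)
    have h := C.midR (p := p) h1 h0 a b
    exact ⟨_, Or.inr rfl, h.out, (hB.arR C hA h1 h (by omega) (by omega)).1⟩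

/-- a layer tile of the arc `i` near a horizontal edge -/
lemma exH (hH : AHi D n H A B s0 i X Y) (a : n * X + 2 ≤ u) (b : u + 3 ≤ n * X + n) :
    ∃ v, (v = n * Y - sh p - 1 ∨ v = n * Y - sh p) ∧ ¬ InP D p u v ∧ arc D p s0 u v = i := by
  by_cases h1 : CQ H A B X Y
  · have h0 : ¬ CQ H A B X (Y - 1) := fun h => hH.1 (iff_of_true h1 h)
    have h := C.midF (p := p) h1 h0 a b
    exact ⟨_, Or.inl rfl, h.out, (hB.arF C hH h1 h (by omega) (by omega)).1⟩
  · have h0 : CQ H A B X (Y - 1) := by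
      by_contra h; exact hH.1 (iff_of_false h1 h)
    have h := C.midC (p := p) h1 h0 a b
    exact ⟨_, Or.inr rfl, h.out, (hB.arC C hH h1 h (by omega) (by omega)).1⟩

/-- **The geometry of the arc `i`.** -/
theorem geoX : Geo n (m - 3) (0, -sh p) (pc (colp D i)) (CQ H A B) (InP D p)
    (AVi D n H A B s0 i) (AHi D n H A B s0 i) (fun x y => lt (x, y) ∈ LaA D p s0 m i)
    (Vti D p s0 i) where
  hn := by have := C.hn; omega
  ok := C.geo_ok
  nd1 := fun X Y => C.nd1
  nd2 := fun X Y => C.nd2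
  bv := fun _ _ h => h.1
  bh := fun _ _ h => h.1
  cont := fun X Y h h' => hB.cont C.AB X Y h h'
  sub := fun _ _ h => (mem_LaA.1 h).1
  lv := by
    intro X Y x y hA hP g1 g2 g3 g4
    simp only at g1 g2 g3 g4
    have hn := C.hn
    obtain ⟨v, k1, k2, k3, k4⟩ : ∃ v, n * Y + 2 ≤ v + sh p ∧ v + sh p + 3 ≤ n * Y + n ∧
        y ≤ v + m ∧ v ≤ y + m := by
      by_cases c1 : y + sh p < n * Y + 2
      · exact ⟨n * Y + 2 - sh p, by omega, by omega, by omega, by omega⟩
      · by_cases c2 : n * Y + n < y + sh p + 3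
        · exact ⟨n * Y + n - 3 - sh p, by omega, by omega, by omega, by omega⟩
        · exact ⟨y, by omega, by omega, by omega, by omega⟩
    obtain ⟨u, hu, h1, h2⟩ := hB.exV C hA k1 k2
    exact mem_LaA.2 ⟨hP, u, v, h1, h2, by omega, by omega, k3, k4⟩
  lh := by
    intro X Y x y hH hP g1 g2 g3 g4
    simp only at g1 g2 g3 g4
    have hn := C.hn
    obtain ⟨u, k1, k2, k3, k4⟩ : ∃ u, n * X + 2 ≤ u ∧ u + 3 ≤ n * X + n ∧
        x ≤ u + m ∧ u ≤ x + m := by
      by_cases c1 : x < n * X + 2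
      · exact ⟨n * X + 2, by omega, by omega, by omega, by omega⟩
      · by_cases c2 : n * X + n < x + 3
        · exact ⟨n * X + n - 3, by omega, by omega, by omega, by omega⟩
        · exact ⟨x, by omega, by omega, by omega, by omega⟩
    obtain ⟨v, hv, h1, h2⟩ := hB.exH C hH k1 k2
    exact mem_LaA.2 ⟨hP, u, v, h1, h2, k3, k4, by omega, by omega⟩
  tL := by
    intro X Y x y hA h1 hx g1 g2 g3 t1 t2
    simp only [zero_add] at hx g1 g2
    subst hx
    have t1' := lyL.1 t1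
    have t2' := lyL.1 t2
    exact vti_of (tieL t1' t2' (hB.arL C hA h1 t1' (by omega) (by omega))
      (hB.arL C hA h1 t2' (by omega) (by omega)) g3) g3
  tR := by
    intro X Y x y hA h1 hx g1 g2 g3 t1 t2
    simp only [zero_add] at hx g1 g2
    subst hx
    have t1' := lyR.1 t1
    have t2' := lyR.1 t2
    exact vti_of (tieR t1' t2' (hB.arR C hA h1 t1' (by omega) (by omega))
      (hB.arR C hA h1 t2' (by omega) (by omega)) g3) g3
  tF := by
    intro X Y x y hH h1 hy g1 g2 g3 t1 t2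
    simp only [zero_add] at hy g1 g2
    have e : y - 1 = n * Y - sh p - 1 := by omega
    have t1' := lyF.1 t1
    have t2' := lyF.1 t2
    have a1 := hB.arF C hH h1 (e ▸ t1') (by omega) (by omega)
    have a2 := hB.arF C hH h1 (e ▸ t2') (by omega) (by omega)
    rw [← e] at a1 a2
    exact vti_of (tieF t1' t2' a1 a2 g3) g3
  tC := by
    intro X Y x y hH h1 hy g1 g2 g3 t1 t2
    simp only [zero_add] at hy g1 g2
    have e : y = n * Y - sh p := by omega
    have t1' := lyC.1 t1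
    have t2' := lyC.1 t2
    have a1 := hB.arC C hH h1 (e ▸ t1') (by omega) (by omega)
    have a2 := hB.arC C hH h1 (e ▸ t2') (by omega) (by omega)
    rw [← e] at a1 a2
    exact vti_of (tieC t1' t2' a1 a2 g3) g3

end ArcB

end Pool.Agent.H31.Sp
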