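import Mathlib
import Pool.Agent.H74.Win.S12

set_option autoImplicit false
open Finset

/-! # Frozen tiles are near the corners

`ring_ly` : a flat ring tile is a layer tile. `fz_sm` : the frozen tiles are within distance `10` of a corner. -/

namespace Pool.Agent.H31.Sp

open Pool.Agent.H33.Q1 (lt tt tt_lt)
open Pool.Agent.H46.Sp (Win)
open Pool.Agent.H74.Win
open Pool.Agent.H42.Sp (Sd Ix kt rt)

variable {D : Win} {n H : ℤ} {A B : ℤ → ℤ} {p : Bool} {x y X Y x' Y' : ℤ}
  {YP YQ : ℤ} {CL CR : ℤ → Bool}

/-- **flat tiles next to `P` are layer tiles** -/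
theorem ring_ly (h : Flat D x Y) (hn : ¬ PT D x Y) (h1 : x ≤ x' + 1) (h2 : x' ≤ x + 1)
    (h3 : Y ≤ Y' + 1) (h4 : Y' ≤ Y + 1) (hp : PT D x' Y') : ∃ t : Sd, Ly D false t x Y := by
  have hB : FlatB D x Y := flatB_of h hn (by omega) (by omega) (by omega) (by omega) hp
  have hp' := hp
  obtain ⟨p1, p2, p3, p4⟩ := hp
  unfold PT at hn
  rcases hB with k | k | k | k | ⟨Y0, k⟩ | ⟨Y0, k⟩ | ⟨Y0, k⟩ | ⟨Y0, k⟩
  · refine ⟨.L, ?_⟩
    have r0 := k.row Y (by omega) (by omega)
    have r1 := k.row Y' (by omega) (by omega)
    have r2 := k.row (Y + 1) (by omega) (by omega)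
    have r3 := k.row (Y - 1) (by omega) (by omega)
    have e1 := k.lo
    have e2 := k.hi
    change LyL D false x Y
    unfold LyL
    rw [sh_false, add_zero]
    refine ⟨by omega, by omega, by omega, fun _ => by omega, fun _ => by omega⟩
  · refine ⟨.R, ?_⟩
    have r0 := k.row Y (by omega) (by omega)
    have r1 := k.row Y' (by omega) (by omega)
    have r2 := k.row (Y + 1) (by omega) (by omega)
    have r3 := k.row (Y - 1) (by omega) (by omega)
    have e1 := k.lo
    have e2 := k.hi
    change LyR D false x Y
    unfold LyR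
    rw [sh_false, add_zero]
    refine ⟨by omega, by omega, by omega, fun _ => by omega, fun _ => by omega⟩
  · refine ⟨.F, ?_⟩
    have e1 := k.lo
    have e2 := k.hi
    have e3 := k.hh
    have r1 := k.row Y' (by omega) (by omega)
    have hY : Y < 0 := by
      by_contra hc
      have r0 := k.row Y (by omega) (by omega)
      omega
    have r2 := k.row (Y + 1) (by omega) (by omega)
    change LyF D false x Y
    unfold LyF
    rw [sh_false, add_zero]
    refine ⟨by omega, by omega, by omega, by omega, fun _ => by omega⟩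
  · refine ⟨.C, ?_⟩
    have e1 := k.lo
    have e2 := k.hi
    have e3 := k.hh
    have r1 := k.row Y' (by omega) (by omega)
    have hY : D.h ≤ Y := by
      by_contra hc
      have r0 := k.row Y (by omega) (by omega)
      omega
    have r2 := k.row (Y - 1) (by omega) (by omega)
    change LyC D false x Y
    unfold LyC
    rw [sh_false, add_zero]
    refine ⟨by omega, by omega, by omega, by omega, fun _ => by omega⟩
  · refine ⟨.F, ?_⟩
    have e1 := k.lo
    have e2 := k.hi
    have e3 := k.y1
    have e4 := k.y2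
    have hY : Y < Y0 := by
      by_contra hc
      have r0 := k.up Y (by omega) (by omega) (by omega)
      omega
    have r0 := k.dn Y (by omega) hY
    have hY' : Y0 ≤ Y' := by
      by_contra hc
      have r1 := k.dn Y' (by omega) (by omega)
      omega
    have r2 := k.up (Y + 1) (by omega) (by omega) (by omega)
    change LyF D false x Y
    unfold LyF
    rw [sh_false, add_zero]
    refine ⟨by omega, by omega, by omega, by omega, fun _ => by omega⟩
  · refine ⟨.F, ?_⟩
    have e1 := k.lo
    have e2 := k.hi
    have e3 := k.y1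
    have e4 := k.y2
    have hY : Y < Y0 := by
      by_contra hc
      have r0 := k.up Y (by omega) (by omega) (by omega)
      omega
    have r0 := k.dn Y (by omega) hY
    have hY' : Y0 ≤ Y' := by
      by_contra hc
      have r1 := k.dn Y' (by omega) (by omega)
      omega
    have r2 := k.up (Y + 1) (by omega) (by omega) (by omega)
    change LyF D false x Y
    unfold LyF
    rw [sh_false, add_zero]
    refine ⟨by omega, by omega, by omega, by omega, fun _ => by omega⟩
  · refine ⟨.C, ?_⟩
    have e1 := k.lo
    have e2 := k.hi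
    have e3 := k.y1
    have e4 := k.y2
    have hY : Y0 ≤ Y := by
      by_contra hc
      have r0 := k.dn Y (by omega) (by omega) (by omega)
      omega
    have r0 := k.up Y hY (by omega)
    have hY' : Y' < Y0 := by
      by_contra hc
      have r1 := k.up Y' (by omega) (by omega)
      omega
    have r2 := k.dn (Y - 1) (by omega) (by omega) (by omega)
    change LyC D false x Y
    unfold LyC
    rw [sh_false, add_zero]
    refine ⟨by omega, by omega, by omega, by omega, fun _ => by omega⟩
  · refine ⟨.C, ?_⟩
    have e1 := k.lo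
    have e2 := k.hi
    have e3 := k.y1
    have e4 := k.y2
    have hY : Y0 ≤ Y := by
      by_contra hc
      have r0 := k.dn Y (by omega) (by omega) (by omega)
      omega
    have r0 := k.up Y hY (by omega)
    have hY' : Y' < Y0 := by
      by_contra hc
      have r1 := k.up Y' (by omega) (by omega)
      omega
    have r2 := k.dn (Y - 1) (by omega) (by omega) (by omega)
    change LyC D false x Y
    unfold LyC
    rw [sh_false, add_zero]
    refine ⟨by omega, by omega, by omega, by omega, fun _ => by omega⟩

/-- **Frozen tiles are near the corners.** -/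
theorem fz_sm (C : CoarseC D n H A B YP YQ CL CR) (h30 : 30 ≤ n) (h : lt (x, y) ∈ FZ D p) :
    Sm n H A B x (y + sh p) := by
  by_contra hs
  obtain ⟨⟨h1, x', y', h2, h3, h4, h5, h6⟩, h7⟩ := mem_FZ.1 h
  have hf : Flat D x (y + sh p) := fl2_of C h30 hs x (y + sh p) (by omega) (by omega) (by omega)
    (by omega)
  obtain ⟨t, ht⟩ := ring_ly (x' := x') (Y' := y' + sh p) hf (fun h => h1 h) (by omega) (by omega)
    (by omega) (by omega) h6
  obtain ⟨k, hk, -, hk2⟩ := flat_tie (p := p) hf (Ly_sh.2 ht)
  rw [add_sub_cancel_right] at hk2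
  exact h7 ⟨k, hk, hk2⟩

/-- other frozen tiles: the open labels which are not frozen tiles are the same -/
lemma wo_off {Q : Ix → Prop} {S T : Finset (ℤ × ℤ)} (hS : S ⊆ FZ D p) (hT : T ⊆ FZ D p)
    (h : lt (x, y) ∉ FZ D p) : lt (x, y) ∈ WO D p Q S ↔ lt (x, y) ∈ WO D p Q T := by
  have h1 : lt (x, y) ∉ S := fun h' => h (hS h')
  have h2 : lt (x, y) ∉ T := fun h' => h (hT h')
  rw [mem_WO, mem_WO, mem_WU, mem_WU]
  tauto

/-- **natural windows with other frozen tiles differ at small tiles only** -/
theorem wo_sm (C : CoarseC D n H A B YP YQ CL CR) (h30 : 30 ≤ n) {Q : Ix → Prop}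
    {S T : Finset (ℤ × ℤ)} (hS : S ⊆ FZ D p) (hT : T ⊆ FZ D p)
    (h : ¬ Sm n H A B x (y + sh p)) : lt (x, y) ∈ WO D p Q S ↔ lt (x, y) ∈ WO D p Q T :=
  wo_off hS hT fun h' => h (fz_sm C h30 h')

/-- the frozen tiles are not on the outermost frame of the large box -/
lemma fz_box (h : lt (x, y) ∈ FZ D p) : D.a (D.yP - 1) ≤ x + 1 ∧ x ≤ D.b D.yQ ∧ -1 ≤ y + sh p ∧
    y + sh p ≤ D.h := (mem_FZ.1 h).1.near'

end Pool.Agent.H31.Sp
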