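import Mathlib
import Pool.Agent.H14.Win.Lnk
import Pool.Agent.H14.Win.NatX

set_option autoImplicit false

/-! # Natural windows with other frozen tiles

`nat_pot` : the potentials of two natural windows with the same pushed groups and other frozen tiles differ by
`ε n ^ (-1/3)` at linked points. -/

namespace Pool.Agent.H31.Sp

open Pool.Agent.H75.Perc hiding ph
open Pool.Agent.H75.TwoArm Pool.Agent.H75.Four Pool.Agent.H69.Q1
open Pool.Agent.Q1 Pool.Agent.Q1.M6c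
open Pool.Agent.H33.Q1 (lt tt tv tf lt_inj tt_lt lt_odd lt_tt)
open Pool.Agent.H46.Sp (Win)
open Pool.Agent.H74.Win
open Pool.Agent.H44.FM.WG (Gr)
open Pool.Agent.Q1.M6e (Lk)
open Pool.Agent.H14.Win (RootC NatA natA_XO disp_eps potT_of_potN)

theorem nat_pot (hAP : AP PlaneK) (H : ℤ) (A B : ℤ → ℤ) {η ε : ℝ} (hη : 0 < η) (hε : 0 < ε) :
    ∃ n0 : ℕ, ∀ n : ℕ, n0 ≤ n → ∀ (D : Win) (YP YQ : ℤ) (CL CR : ℤ → Bool),
    CoarseC D n H A B YP YQ CL CR → ∀ O : OutB D, RootC (1 / 8) n H A B O → ∀ (p : Bool)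
    (s : Finset Gr) (S T : Finset (ℤ × ℤ)) (hS : S ⊆ FZ D p) (hT : T ⊆ FZ D p) (a b : ℤ × ℤ)
    (HX HZ : ℤ → ℤ → ℂ), Lk (InP D p) (η * n) a b →
    PotN D p (XO O p (gA D p s) S hS).inc HX → PotN D p (XO O p (gA D p s) T hT).inc HZ →
    ‖(HX a.1 a.2 - HX b.1 b.2) - (HZ a.1 a.2 - HZ b.1 b.2)‖ ≤ ε * (n : ℝ) ^ (-(1 / 3) : ℝ) := by
  obtain ⟨n0, key⟩ := disp_eps hAP H A B hη hε
  refine ⟨max n0 30, fun n hn D YP YQ CL CR C O hO p s S T hS hT a b HX HZ hL hX hZ => ?_⟩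
  have hn0 : n0 ≤ n := (le_max_left _ _).trans hn
  have h30 : (30 : ℤ) ≤ n := by exact_mod_cast (le_max_right _ _).trans hn
  have hE : ∀ x y, InP D p x y → lt (x, y) ∈ EO D p (gA D p s) := fun x y h =>
    EN_sub_EO (mem_EN.2 h)
  exact key n hn0 D YP YQ CL CR C O hO p s (EO D p (gA D p s)) (WO D p (gA D p s) S)
    (EO D p (gA D p s)) (WO D p (gA D p s) T) (EO_sub_EU.trans EU_sub) (WO_sub hS) (disj_O hS)
    (EO_sub_EU.trans EU_sub) (WO_sub hT) (disj_O hT) (natA_XO C h30 p s hS) (natA_XO C h30 p s hT)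
    (InP D p) hE hE HX HZ (potT_of_potN hX) (potT_of_potN hZ) a b hL

end Pool.Agent.H31.Sp
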