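import Mathlib
import Pool.Agent.H31.Sp.NatP
import Pool.Agent.H44.FM.Wi6

set_option autoImplicit false
open Filter

/-! # `NatW` from the displacement lemma -/

namespace Pool.Agent.H31.Sp

open Pool.Agent.Q1 Pool.Agent.Q1.M6c
open Pool.Agent.H99.NC Pool.Agent.H42.FM
open Pool.Agent.H75.Perc hiding ph
open Pool.Agent.H75.TwoArm
open Pool.Agent.H46.Sp (Win)
open Pool.Agent.H74.Win (OutB)
open Pool.Agent.H14.Win (RootC)
open Pool.Agent.H44.FM.Wi (NatW potN_HN)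

/-- **Natural windows with other frozen tiles** -/
theorem natW_of (hAP : AP PlaneK) {R : ℕ → ℕ} {F : Filter ℕ} {D : ℕ → Win} {O : ∀ j, OutB (D j)}
    {H : ℤ} {A B : ℤ → ℤ} {YP YQ : ℤ} (hR : Tendsto R F atTop)
    (hC : ∀ᶠ j in F, ∃ CL CR : ℤ → Bool, CoarseC (D j) (R j) H A B YP YQ CL CR)
    (hO : ∀ᶠ j in F, RootC (1 / 8) (R j) H A B (O j)) : NatW R F O := by
  intro η hη ε hε
  obtain ⟨n0, key⟩ := nat_pot hAP H A B hη hε
  filter_upwards [hC, hO, hR.eventually_ge_atTop n0] with j a1 a2 a3 p s S hS a b HX hL hX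
  obtain ⟨CL, CR, a1⟩ := a1
  exact key (R j) a3 (D j) YP YQ CL CR a1 (O j) a2 p s S _ hS _ a b HX _ hL hX (potN_HN (O j) p s)

end Pool.Agent.H31.Sp
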