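import Mathlib
import Pool.Agent.H31.Sp.Str
import Pool.Agent.H13.Sp.Bridge
import Pool.Agent.H30.Sp.LineC
import Pool.Agent.H74.Win.S12
import Pool.Agent.Q1.M6e.PathT

set_option autoImplicit false
open Finset

/-! # The six groups of walls of a coarse window

`grW YP YQ w` : group of a unit edge. `grp_wl` : it is helper74's group of the ties of the edge. `sL_grp` : the
weights of helper30's lines depend on the group only. `tot_grp` : the total of the data `datD` for weights which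
depend on the group only. -/

namespace Pool.Agent.H31.Sp

open Pool.Agent.H33.Q1 (lt tt tt_lt)
open Pool.Agent.H46.Sp (Win)
open Pool.Agent.H74.Win (InP sh sh_false sh_true natc OutB EN grp gL gR)
open Pool.Agent.H30.Sp (sL)
open Pool.Agent.H42.Sp (Sd Ix kt rt)
open Pool.Agent.H13.Sp
open Pool.Agent.H13.R45 (gp ev ev_true ev_false)
open Pool.Agent.H39.Q1 (TF mem_TF)
open Pool.Agent.H44.FM.WG (Gr)

variable {D : Win} {n m H s0 i L : ℤ} {A B : ℤ → ℤ} {p : Bool} {x y X Y Z u v : ℤ} {c : Bool} {s : Sd}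
  {YP YQ : ℤ} {CL CR : ℤ → Bool} {w0 : Kp H A B} {k : Ix} {S Cs : Finset (ℤ × ℤ)}
  {a : ℤ × ℤ → ℂ}

/-- group of a unit edge -/
def grW (YP YQ : ℤ) (w : Sd × ℤ × ℤ) : Gr :=
  match w.1 with
  | .L => if w.2.2 < YP then .ll else .lu
  | .R => if w.2.2 < YQ then .rl else .ru
  | .F => .fo
  | .C => .ce

/-- the tie of a tie point -/
lemma CA_tie (h : CA D p k) :
    TieP D p k.1 (decide ((k.2.1 + k.2.2) % 2 = 1)) (kt k).1 (kt k).2 := by
  refine ⟨Pool.Agent.H42.Sp.kt_odd k, ?_, ?_⟩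
  · rw [show (((kt k).1, (kt k).2) : ℤ × ℤ) = kt k from rfl, gt_kt]; exact h
  · rw [show (((kt k).1, (kt k).2) : ℤ × ℤ) = kt k from rfl, gt_kt, decide_eq_true_eq]

lemma bt_gt (t : ℤ × ℤ) : bt s c t = ((gt s c t).1 + (dr s).1, (gt s c t).2 + (dr s).2) := by
  cases s <;> cases c <;> simp [bt, gt, dr]

/-- the edge of a tie point -/
lemma ek_CA (h : CA D p k) : ek D n p (lt (kt k)) =
    (k.1, (k.2.1 + (dr k.1).1) / n, (k.2.2 + (dr k.1).2 + sh p) / n) := by
  have h1 := ek_tie (n := n) (CA_tie h)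
  have e : (((kt k).1, (kt k).2) : ℤ × ℤ) = kt k := rfl
  rw [e, bt_gt, gt_kt] at h1
  exact h1

/-- **the groups agree** -/
theorem grp_wl (hB : ArcB D n H A B p s0) (C : CoarseC D n H A B YP YQ CL CR) (w0 : Kp H A B)
    (h : CA D p k) : grW YP YQ (wlD D n H A B p w0 (lt (kt k))).1 = grp D p k := by
  have hn := C.toCoarse.pos
  have h1 := wl_str hB C.toCoarse w0 (CA_tie h)
  rw [show (((kt k).1, (kt k).2) : ℤ × ℤ) = kt k from rfl, ek_CA h] at h1
  rw [h1]
  obtain ⟨s, x, y⟩ := k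
  have key : ∀ T z : ℤ, (z / n < T ↔ z < n * T) := fun T z => by
    rw [Int.ediv_lt_iff_lt_mul hn, mul_comm]
  unfold grW grp
  cases s
  · simp only [dr, add_zero, gL, key, C.yP]
  · simp only [dr, add_zero, gR, key, C.yQ]
  · rfl
  · rfl

/-- the weights of the line by groups -/
noncomputable def sG (p : Bool) (a b c : ℂ) (g : Gr) : ℂ :=
  match p, g with
  | false, .fo => a * (1 - a)
  | false, .ll => b * (1 - b)
  | false, .rl => c * (1 - c)
  | false, .ce => 0
  | false, .lu => 0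
  | false, .ru => 0
  | true, .ce => a * (1 - a)
  | true, .lu => c * (1 - c)
  | true, .ru => b * (1 - b)
  | true, .fo => 0
  | true, .ll => 0
  | true, .rl => 0

/-- **the weights of the line by groups** -/
theorem sL_grp (h : CA D p k) (a b c : ℂ) : sL D p a b c k = sG p a b c (grp D p k) := by
  obtain ⟨s, x, y⟩ := k
  cases s <;> cases p
  · simp only [sL, grp, gL, sh_false, add_zero]
    split_ifs <;> rfl
  · simp only [sL, grp, gL, sh_true]
    obtain ⟨k1, k2, -⟩ := h
    unfold LyA LyP at k1 k2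
    rw [sh_true] at k1 k2
    by_cases c1 : D.yP ≤ y
    · rw [if_pos c1, if_neg (by omega)]; rfl
    · have hy : y + 1 ≠ D.yP := by
        intro hy
        have h3 := D.aP (by omega)
        rw [← hy, show y + 1 - 1 = y - 1 + 1 by ring] at h3
        omega
      rw [if_neg c1, if_pos (by omega)]; rfl
  · simp only [sL, grp, gR, sh_false, add_zero]
    split_ifs <;> rfl
  · simp only [sL, grp, gR, sh_true]
    obtain ⟨k1, k2, -⟩ := h
    unfold LyA LyP at k1 k2
    rw [sh_true] at k1 k2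
    by_cases c1 : D.yQ ≤ y
    · rw [if_pos c1, if_neg (by omega)]; rfl
    · have hy : y + 1 ≠ D.yQ := by
        intro hy
        have h3 := D.bQ (by omega)
        rw [← hy, show y + 1 - 1 = y - 1 + 1 by ring] at h3
        omega
      rw [if_neg c1, if_pos (by omega)]; rfl
  · rfl
  · rfl
  · rfl
  · rfl

/-- **the totals of the data `datD`** -/
theorem tot13 {O : OutB D} {hS : S ⊆ FR D p} (hB : ArcB D n H A B p s0)
    (C : CoarseC D n H A B YP YQ CL CR) (w0 : Kp H A B) (f : Gr → ℂ) :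
    (datD O n H A B p s0 L m S hS w0).tot Cs a (fun w => f (grW YP YQ w.1)) =
      ∑ z ∈ Cs, a z * (XA O p S hS).incW
        (Pool.Agent.H74.Win.qs D p (fun k => f (grp D p k))) z := by
  unfold Pool.Agent.Q1.M6e.Wn.DatW.tot
  refine Pool.Agent.Q1.M6e.Tot_incW (X := XA O p S hS) (Bb := EN D p) rfl ?_ (fun e he => ?_)
    (fun e he => ?_)
  · rw [disjoint_left]
    intro e he he'
    obtain ⟨u, v, s, c, rfl, t⟩ := exists_tie he'
    exact t.ly.out (Pool.Agent.H74.Win.mem_EN.1 he)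
  · obtain ⟨x, y, rfl⟩ := Pool.Agent.H74.R45.exists_lt (odd_EN he)
    exact Pool.Agent.H74.Win.qs_P (Pool.Agent.H74.Win.mem_EN.1 he)
  · obtain ⟨u, v, s, c, rfl, t⟩ := exists_tie he
    obtain ⟨k, hk, hk2⟩ : ∃ k, CA D p k ∧ kt k = (u, v) :=
      ⟨_, t.2.1, kt_gt t.1⟩
    have hco : colp D (fmA D p s0 (lt (u, v))) = decide ((k.2.1 + k.2.2) % 2 = 1) := by
      have h1 := (CA_tie hk).co (s0 := s0)
      rw [show (((kt k).1, (kt k).2) : ℤ × ℤ) = kt k from rfl, hk2] at h1
      exact h1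
    show _ = if colp D (fmA D p s0 (lt (u, v))) = true then
      1 - f (grW YP YQ (wlD D n H A B p w0 (lt (u, v))).1) else
        f (grW YP YQ (wlD D n H A B p w0 (lt (u, v))).1)
    rw [hco, ← hk2, grp_wl hB C w0 hk, Pool.Agent.H74.Win.qs_kt (CA_iff.1 hk)]
    obtain ⟨s', x', y'⟩ := k
    simp only
    by_cases h : (x' + y') % 2 = 1
    · have e1 : ev (x', y') = false := ev_false.2 h
      rw [e1, decide_eq_true h]
      simp
    · have e1 : ev (x', y') = true := ev_true.2 (by omega)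
      rw [e1, decide_eq_false h]
      simp

/-- the same with helper74's environment -/
theorem tot_grp {O : OutB D} {hS : S ⊆ FR D p} (hS' : S ⊆ Pool.Agent.H74.Win.FZ D p)
    (hB : ArcB D n H A B p s0)
    (C : CoarseC D n H A B YP YQ CL CR) (w0 : Kp H A B) (f : Gr → ℂ) :
    (datD O n H A B p s0 L m S hS w0).tot Cs a (fun w => f (grW YP YQ w.1)) =
      ∑ z ∈ Cs, a z * (Pool.Agent.H74.Win.XA O p S hS').incW
        (Pool.Agent.H74.Win.qs D p (fun k => f (grp D p k))) z := by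
  rw [XA_eq hS']
  exact tot13 hB C w0 f

/-- the walls of the groups `t` -/
noncomputable def wgD (H : ℤ) (A B : ℤ → ℤ) (YP YQ : ℤ) (g : Gr) : Finset (Kp H A B) :=
  univ.filter fun w => grW YP YQ w.1 = g

lemma wgD_dj {g g' : Gr} (h : g ≠ g') : Disjoint (wgD H A B YP YQ g) (wgD H A B YP YQ g') := by
  rw [disjoint_left]
  intro w h1 h2
  unfold wgD at h1 h2
  rw [mem_filter] at h1 h2
  exact h (h1.2.symm.trans h2.2)

open Classical in
/-- **the natural windows** (helper74's `XN`) from the data with naturally open frozen tiles -/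
theorem tot_XN {O : OutB D} {hS : Pool.Agent.H74.Win.Snat D p ⊆ FR D p}
    (hB : ArcB D n H A B p s0) (C : CoarseC D n H A B YP YQ CL CR) (w0 : Kp H A B) (t : Finset Gr)
    (hz : ∀ z ∈ Cs, ∀ k, Pool.Agent.H74.Win.CA D p k → ¬ Pool.Agent.H13.R45.Ag k.2 z) :
    (datD O n H A B p s0 L m (Pool.Agent.H74.Win.Snat D p) hS w0).tot Cs a
      (fun w => if grW YP YQ w.1 ∈ t then 1 / 4 else 0) =
      ∑ z ∈ Cs, a z * (Pool.Agent.H74.Win.XN O p t).inc z := by
  rw [tot_grp (f := fun g => if g ∈ t then (1 / 4 : ℂ) else 0) Pool.Agent.H74.Win.Snat_sub hB C w0]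
  refine sum_congr rfl fun z hz' => ?_
  unfold Pool.Agent.H74.Win.XN
  rw [Pool.Agent.H74.Win.XO_XA (hz z hz')]
  have e : (fun k => if grp D p k ∈ t then (1 / 4 : ℂ) else 0) =
      Pool.Agent.H74.Win.sA (Pool.Agent.H74.Win.gA D p t) := by
    funext k
    unfold Pool.Agent.H74.Win.sA Pool.Agent.H74.Win.gA
    by_cases h : grp D p k ∈ t
    · rw [if_pos h, if_pos h]
    · rw [if_neg h, if_neg h]
  rw [e]

end Pool.Agent.H31.Sp
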