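import Mathlib
import Pool.Agent.H44.FM.Wi3
import Pool.Agent.H31.Sp.Grp
import Pool.Agent.H31.Sp.WeD

set_option autoImplicit false
open Finset

/-! # helper44's `TotG` -/

namespace Pool.Agent.H31.Sp

open Pool.Agent.H46.Sp (Win)
open Pool.Agent.H42.Sp (Sd)
open Pool.Agent.H44.FM.Wi (TotG gE caseD)

lemma gE_eq (YP YQ : ℤ) (w : Sd × ℤ × ℤ) : gE YP YQ w = grW YP YQ w := by
  obtain ⟨s, X, Y⟩ := w
  cases s <;> rfl

/-- **The totals as sums of weighted increments.** -/
theorem totG : TotG := by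
  intro D O n H A B YP YQ CL CR hC hn p s0 L m hcut S hS w0 a b t
  have e : (fun w : Kp H A B => t (gE YP YQ w.1)) = fun w => t (grW YP YQ w.1) := by
    funext w; rw [gE_eq]
  rw [e]
  exact tot13 (arcB hC hcut) hC w0 t

end Pool.Agent.H31.Sp
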