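import Mathlib
import Pool.Agent.H31.Sp.NatW
import Pool.Agent.H44.FM.Wi8

set_option autoImplicit false
open Filter

/-! # The input `NatW` for the windows of a shape -/

namespace Pool.Agent.H31.Sp

open Pool.Agent.Q1 Pool.Agent.Q1.M6c
open Pool.Agent.H33.Q1
open Pool.Agent.H75.Perc hiding ph
open Pool.Agent.H75.TwoArm
open Pool.Agent.H46.Sp (Win)
open Pool.Agent.H74.Win (OutB)
open Pool.Agent.H14.Win (RootC rootC_of)
open Pool.Agent.H44.FM.Wi (NatW OSeq DW coarse_DW)
open Pool.Agent.H5.FM (RowF winOf)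
open Pool.Agent.H21.FM (Shape)

variable {S : Shape} {y0 y1 : ℤ} {a b : ℤ → ℤ} {yP yQ : ℤ} (F : RowF S.P.Q y0 y1 a b yP yQ)

/-- **The input `NatW` for the windows of a shape** -/
theorem natW_F (hAP : AP PlaneK) {O : ∀ j, OutB (DW F j)} (hO : OSeq F O) :
    NatW (fun j => 2 * j) atTop O := by
  have hR : Tendsto (fun j : ℕ => 2 * j) atTop atTop :=
    tendsto_atTop_mono (fun j => by simp only [id]; omega) tendsto_id
  refine natW_of (H := y1 - y0) (A := fun Y => a (Y + y0)) (B := fun Y => b (Y + y0))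
    (YP := yP - y0) (YQ := yQ - y0) hAP hR ?_ ?_
  · filter_upwards [eventually_ge_atTop 30] with j hj
    exact ⟨_, _, coarse_DW F hj⟩
  · filter_upwards [eventually_ge_atTop 30, hO.ok] with j hj h1
    refine rootC_of (coarse_DW F hj).toCoarse (N := (j : ℤ)) h1.root ?_
    have : (30 : ℝ) ≤ j := by exact_mod_cast hj
    push_cast
    linarith

end Pool.Agent.H31.Sp
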