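import Mathlib
import Pool.Agent.H5.FM.Dis
import Pool.Agent.H64.Win.NoRR

set_option autoImplicit false

/-! # The windows of a shape of the class `Dis` have no row with two reflex ends -/

namespace Pool.Agent.H31.Sp

open Pool.Agent.H46.Sp (Win)
open Pool.Agent.H64.Win (fL fR fL_iff fR_iff NoRR)
open Pool.Agent.H5.FM (RowF winOf RfL RfR Dis)
open Pool.Agent.H21.FM (Shape)

lemma rfL_of {D : Win} {j : ℤ} (h : fL D j = true) : RfL D j := by
  unfold RfL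
  rcases (fL_iff D j).1 h with ⟨h1, h2⟩ | ⟨h1, h2⟩
  · rw [if_pos (by omega)]
    exact ⟨h1, h2⟩
  · rw [if_neg (by omega)]
    exact h2

lemma rfR_of {D : Win} {j : ℤ} (h : fR D j = true) : RfR D j := by
  unfold RfR
  rcases (fR_iff D j).1 h with ⟨h1, h2⟩ | ⟨h1, h2⟩
  · rw [if_pos h1]
    exact h2
  · rw [if_neg (by omega)]
    exact ⟨h1, h2⟩

/-- **No row with two reflex ends** -/
theorem norr_winOf {S : Shape} {y0 y1 : ℤ} {a b : ℤ → ℤ} {yP yQ : ℤ}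
    (F : RowF S.P.Q y0 y1 a b yP yQ) (hD : Dis S.P.Q) {n : ℕ} (hn : 1 ≤ n) (h2 : 2 ≤ n) :
    NoRR (winOf F n hn) := fun j j0 jH h =>
  Pool.Agent.H5.FM.dis_win F hD hn h2 j j0 jH ⟨rfL_of h.1, rfR_of h.2⟩

end Pool.Agent.H31.Sp
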